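import Mathlib
import Pool.Agent.Helper227.Defs

set_option autoImplicit false
set_option maxHeartbeats 400000

namespace Pool.Agent.Y542.TD

open Encodable Denumerable

/-- A first-order signature: `rel i = some m` (`fn i = some m`) if the `i`-th relation (function)
symbol exists and is `m`-ary, `rel i = none` (`fn i = none`) if there is no such symbol. Constants
are the function symbols of arity `0`. -/
structure Sig where
  rel : ℕ → Option ℕ
  fn : ℕ → Option ℕ

/-- Computable signatures. -/
def Sig.IsComputable (S : Sig) : Prop := Computable S.rel ∧ Computable S.fn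

/-- Terms in the variables `x_0, …, x_(n-1)`. -/
inductive Term (S : Sig) (n : ℕ) : Type
  | var (k : Fin n) : Term S n
  | app (i m : ℕ) (h : S.fn i = some m) (ts : Fin m → Term S n) : Term S n

/-- First-order formulas in the free variables `x_0, …, x_(n-1)`, built from equations and atomic
formulas `R_i(t_1, …, t_m)` by negation, conjunction and existential quantification. In `ex φ` the
bound variable is the variable `x_0` of `φ`, and the variable `x_(k+1)` of `φ` becomes `x_k`. -/
inductive Fml (S : Sig) : ℕ → Type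
  | eq {n : ℕ} (s t : Term S n) : Fml S n
  | rel {n : ℕ} (i m : ℕ) (h : S.rel i = some m) (ts : Fin m → Term S n) : Fml S n
  | neg {n : ℕ} (φ : Fml S n) : Fml S n
  | and {n : ℕ} (φ ψ : Fml S n) : Fml S n
  | ex {n : ℕ} (φ : Fml S (n + 1)) : Fml S n

/-- The Gödel number of a term. -/
def Term.code {S : Sig} {n : ℕ} : Term S n → ℕ
  | .var k => 2 * (k : ℕ)
  | .app i _ _ ts => 2 * Nat.pair i (encode (List.ofFn fun j => (ts j).code)) + 1

/-- The Gödel number of a formula. -/
def Fml.code {S : Sig} : {n : ℕ} → Fml S n → ℕ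
  | _, .eq s t => Nat.pair 0 (Nat.pair s.code t.code)
  | _, .rel i _ _ ts => Nat.pair 1 (Nat.pair i (encode (List.ofFn fun j => (ts j).code)))
  | _, .neg φ => Nat.pair 2 φ.code
  | _, .and φ ψ => Nat.pair 3 (Nat.pair φ.code ψ.code)
  | _, .ex φ => Nat.pair 4 φ.code

/-- Structures for the signature `S` with a universe `U` consisting of natural numbers. The
relations and functions are given on all lists of numbers; only their values on the lists of
elements of `U` of the right length matter. -/
structure Str (S : Sig) where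
  U : Set ℕ
  R : ℕ → List ℕ → Prop
  F : ℕ → List ℕ → ℕ
  nonempty : U.Nonempty
  closed : ∀ i l, S.fn i = some l.length → (∀ x ∈ l, x ∈ U) → F i l ∈ U

/-- `A` is a computable structure: its universe and its atomic diagram are computable. -/
def Str.IsComputable {S : Sig} (A : Str S) : Prop :=
  (ComputablePred fun x : ℕ => x ∈ A.U) ∧
  (ComputablePred fun p : ℕ × List ℕ =>
    (S.rel p.1 = some p.2.length ∧ ∀ x ∈ p.2, x ∈ A.U) ∧ A.R p.1 p.2) ∧
  ComputablePred fun p : (ℕ × List ℕ) × ℕ =>
    (S.fn p.1.1 = some p.1.2.length ∧ ∀ x ∈ p.1.2, x ∈ A.U) ∧ A.F p.1.1 p.1.2 = p.2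

/-- The value of a term. -/
def Term.val {S : Sig} (A : Str S) {n : ℕ} (v : Fin n → ℕ) : Term S n → ℕ
  | .var k => v k
  | .app i _ _ ts => A.F i (List.ofFn fun j => (ts j).val A v)

/-- Truth of a formula. -/
def Sat {S : Sig} (A : Str S) : {n : ℕ} → Fml S n → (Fin n → ℕ) → Prop
  | _, .eq s t, v => s.val A v = t.val A v
  | _, .rel i _ _ ts, v => A.R i (List.ofFn fun j => (ts j).val A v)
  | _, .neg φ, v => ¬ Sat A φ v
  | _, .and φ ψ, v => Sat A φ v ∧ Sat A ψ v
  | _, .ex φ, v => ∃ a ∈ A.U, Sat A φ (Fin.cons a v)

open Classical in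
/-- The (characteristic function of the set of the Gödel numbers of the sentences in the) theory
of `A`. -/
noncomputable def Th {S : Sig} (A : Str S) (x : ℕ) : Bool :=
  decide (∃ φ : Fml S 0, φ.code = x ∧ Sat A φ Fin.elim0)

end Pool.Agent.Y542.TD
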