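import Mathlib
import Pool.Agent.Y542.TD.Syn
import Pool.Agent.Helper941.Zeta.Cmp
import Pool.Agent.H685R3.Om

set_option autoImplicit false
set_option maxHeartbeats 400000

namespace Pool.Agent.Y542.TD

open Encodable Denumerable
open Pool.Agent.Helper941 Pool.Agent.Helper941.IsoProb Pool.Agent.Helper941.Zeta

variable {α β : Type} [Primcodable α] [Primcodable β]

/-- course-of-values recursion -/
def cov {β : Type} (g : List β → β) : ℕ → List β
  | 0 => []
  | n + 1 => cov g n ++ [g (cov g n)]

def cv {β : Type} (g : List β → β) (n : ℕ) : β := g (cov g n)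

theorem cov_eq {β : Type} (g : List β → β) (n : ℕ) : cov g n = (List.range n).map (cv g) := by
  induction n with
  | zero => rfl
  | succ n ih =>
    rw [List.range_succ, List.map_append, ← ih]
    rfl

theorem length_cov {β : Type} (g : List β → β) (n : ℕ) : (cov g n).length = n := by
  rw [cov_eq]; simp

theorem getD_cov {β : Type} (g : List β → β) (n k : ℕ) (d : β) (h : k < n) :
    (cov g n).getD k d = cv g k := by
  rw [cov_eq, List.getD_eq_getElem _ _ (by simpa using h)]
  simp

theorem c_cv {g : α → List β → β} (hg : Computable fun p : α × List β => g p.1 p.2) :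
    Computable fun p : α × ℕ => cv (g p.1) p.2 := by
  have h1 : Computable fun p : α × ℕ => cov (g p.1) p.2 := by
    have h : Computable fun p : α × ℕ =>
        (Nat.rec [] (fun _ l => l ++ [g p.1 l]) p.2 : List β) := by
      refine Computable.nat_rec (f := fun p : α × ℕ => p.2) (g := fun _ => ([] : List β))
        (h := fun (p : α × ℕ) (q : ℕ × List β) => q.2 ++ [g p.1 q.2]) (c_snd c_id)
        (Computable.const []) ?_
      refine Computable.list_concat.comp (Computable.snd.comp Computable.snd) ?_
      exact hg.comp ((c_fst (c_fst c_id)).pair (c_snd (c_snd c_id)))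
    refine h.of_eq fun p => ?_
    induction p.2 with
    | zero => rfl
    | succ n ih =>
      show _ = cov (g p.1) n ++ [g p.1 (cov (g p.1) n)]
      rw [← ih]
  exact hg.comp ((c_fst c_id).pair h1)

theorem mem_lt (l : List ℕ) : ∀ s ∈ l, s < encode l := by
  induction l with
  | nil => intro s hs; simp at hs
  | cons a l ih =>
    intro s hs
    rw [Encodable.encode_list_cons]
    rcases List.mem_cons.1 hs with rfl | hs
    · exact Nat.lt_succ_of_le (Nat.left_le_pair _ _)
    · exact (ih s hs).trans (Nat.lt_succ_of_le (Nat.right_le_pair _ _))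

theorem lt_pair_right {a b : ℕ} (h : 1 ≤ a) : b < Nat.pair a b := by
  unfold Nat.pair
  split_ifs with h1
  · nlinarith
  · nlinarith

/-- the values of a list of arguments -/
def mg (l L : List ℕ) : List ℕ := l.map fun s => L.getD s 0

theorem c_mg {f g : α → List ℕ} (hf : Computable f) (hg : Computable g) :
    Computable fun a => mg (f a) (g a) := by
  have h : Primrec fun p : List ℕ × List ℕ => mg p.1 p.2 := by
    unfold mg
    exact Primrec.list_map (f := fun p : List ℕ × List ℕ => p.1)
      (g := fun (p : List ℕ × List ℕ) s => p.2.getD s 0) Primrec.fst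
      ((Primrec.list_getD 0).comp (Primrec.snd.comp Primrec.fst) Primrec.snd)
  exact h.to_comp.comp (hf.pair hg)

theorem mg_cov {g : List ℕ → ℕ} {l : List ℕ} {n : ℕ} (h : ∀ s ∈ l, s < n) :
    mg l (cov g n) = l.map (cv g) := by
  unfold mg
  exact List.map_congr_left fun s hs => getD_cov g n s 0 (h s hs)

/-- `max` of the members of a list and `1` -/
def mx (l : List ℕ) : ℕ := l.foldr max 1

theorem c_mx {f : α → List ℕ} (hf : Computable f) : Computable fun a => mx (f a) := by
  have h : Primrec mx := by
    unfold mx
    exact Primrec.list_foldr (f := fun l : List ℕ => l) (g := fun _ => 1)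
      (h := fun _ (p : ℕ × ℕ) => max p.1 p.2) Primrec.id (Primrec.const 1)
      (Primrec.nat_max.comp (Primrec.fst.comp Primrec.snd) (Primrec.snd.comp Primrec.snd))
  exact h.to_comp.comp hf

theorem mx_pos (l : List ℕ) : 1 ≤ mx l := by
  unfold mx
  induction l with
  | nil => simp
  | cons a l ih => simp only [List.foldr_cons]; omega

theorem mx_le {l : List ℕ} {n : ℕ} (hn : 1 ≤ n) : mx l ≤ n ↔ ∀ s ∈ l, s ≤ n := by
  unfold mx
  induction l with
  | nil => simp [hn]
  | cons a l ih =>
    simp only [List.foldr_cons, List.mem_cons, forall_eq_or_imp, ← ih]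
    omega

/-- all members of the list are nonzero -/
def nz (l : List ℕ) : Prop := ∀ s ∈ l, s ≠ 0

theorem p_nz {f : α → List ℕ} (hf : Computable f) : ComputablePred fun a => nz (f a) := by
  have h : PrimrecPred nz := by
    unfold nz
    exact Pool.Agent.Helper227.PP.all_mem (f := fun l : List ℕ => l) (p := fun _ s => s ≠ 0)
      ((Primrec.eq.comp Primrec.snd (Primrec.const 0)).not) Primrec.id
  obtain ⟨hd, h⟩ := h
  refine computablePred_comp (P := nz) ?_ hf
  exact ⟨hd, h.to_comp⟩

end Pool.Agent.Y542.TD
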