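import Mathlib
import Pool.Agent.Y542.TD.Cov

set_option autoImplicit false
set_option maxHeartbeats 400000

namespace Pool.Agent.Y542.TD

open Encodable Denumerable
open Pool.Agent.Helper941 Pool.Agent.Helper941.IsoProb Pool.Agent.Helper941.Zeta

variable {α β : Type} [Primcodable α] [Primcodable β]

theorem p_eqo {f g : α → Option ℕ} (hf : Computable f) (hg : Computable g) :
    ComputablePred fun a => f a = g a := by
  have h : PrimrecPred fun p : Option ℕ × Option ℕ => p.1 = p.2 :=
    Primrec.eq.comp Primrec.fst Primrec.snd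
  obtain ⟨hd, h⟩ := h
  refine computablePred_comp (P := fun p : Option ℕ × Option ℕ => p.1 = p.2)
    (f := fun a => (f a, g a)) ?_ (hf.pair hg)
  exact ⟨hd, h.to_comp⟩

theorem c_lenn {f : α → List ℕ} (hf : Computable f) : Computable fun a => (f a).length :=
  Computable.list_length.comp hf

/-- the argument list coded by a number -/
def al (m : ℕ) : List ℕ := ofNat (List ℕ) m

theorem c_al {f : α → ℕ} (hf : Computable f) : Computable fun a => al (f a) :=
  (Computable.ofNat (List ℕ)).comp hf

theorem al_encode (l : List ℕ) : al (encode l) = l := by unfold al; simp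

theorem encode_al (m : ℕ) : encode (al m) = m := by unfold al; simp

theorem mem_al {m s : ℕ} (h : s ∈ al m) : s < m := by
  have := mem_lt (al m) s h
  rwa [encode_al] at this

section wf

variable (S : Sig)

open Classical in
/-- one step of the recursion for the terms -/
noncomputable def gT (L : List ℕ) : ℕ :=
  if L.length % 2 = 0 then L.length / 2 + 2
  else if S.fn (L.length / 2).unpair.1 = some (al (L.length / 2).unpair.2).length ∧
      nz (mg (al (L.length / 2).unpair.2) L) then
    mx (mg (al (L.length / 2).unpair.2) L) else 0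

noncomputable def WT (t : ℕ) : ℕ := cv (gT S) t

variable {S}

theorem c_gT (hS : S.IsComputable) : Computable (gT S) := by
  classical
  unfold gT
  have hl : Computable fun L : List ℕ => L.length := c_lenn c_id
  have h2 : Computable fun L : List ℕ => L.length / 2 := c_div2 hl
  have ha : Computable fun L : List ℕ => al (L.length / 2).unpair.2 := c_al (c_up2 h2)
  have hm : Computable fun L : List ℕ => mg (al (L.length / 2).unpair.2) L := c_mg ha c_id
  refine c_ite (p_eq (c_mod2 hl) (c_const 0)) (c_add h2 (c_const 2)) (c_ite (p_and ?_ (p_nz hm))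
    (c_mx hm) (c_const 0))
  exact p_eqo (hS.2.comp (c_up1 h2)) (Computable.option_some.comp (c_lenn ha))

theorem c_WT (hS : S.IsComputable) : Computable (WT S) := by
  have h := c_cv (α := ℕ) (g := fun _ => gT S) ((c_gT hS).comp (c_snd c_id))
  exact h.comp ((c_const 0).pair c_id)

theorem wt_var (k : ℕ) : WT S (2 * k) = k + 2 := by
  have h4 := length_cov (gT S) (2 * k)
  show gT S (cov (gT S) (2 * k)) = _
  generalize cov (gT S) (2 * k) = L at h4
  unfold gT
  rw [h4, if_pos (by omega)]
  omega

open Classical in
theorem wt_app (i m : ℕ) : WT S (2 * Nat.pair i m + 1) =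
    if S.fn i = some (al m).length ∧ nz ((al m).map (WT S)) then mx ((al m).map (WT S)) else 0 := by
  have h1 : (2 * Nat.pair i m + 1) / 2 = Nat.pair i m := by omega
  have h2 : ∀ s ∈ al m, s < 2 * Nat.pair i m + 1 := by
    intro s hs
    have := mem_al hs
    have := Nat.right_le_pair i m
    omega
  have h3 : mg (al m) (cov (gT S) (2 * Nat.pair i m + 1)) = (al m).map (WT S) := mg_cov h2
  have h4 := length_cov (gT S) (2 * Nat.pair i m + 1)
  show gT S (cov (gT S) (2 * Nat.pair i m + 1)) = _
  generalize cov (gT S) (2 * Nat.pair i m + 1) = L at h3 h4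
  unfold gT
  rw [h4, if_neg (by omega), h1, Nat.unpair_pair, h3]

theorem wt_iff (n : ℕ) : ∀ t : ℕ, (∃ τ : Term S n, τ.code = t) ↔ WT S t ≠ 0 ∧ WT S t ≤ n + 1 := by
  intro t
  induction t using Nat.strong_induction_on with
  | _ t ih =>
    rcases Nat.even_or_odd' t with ⟨k, rfl | rfl⟩
    · rw [wt_var]
      constructor
      · rintro ⟨τ, hτ⟩
        cases τ with
        | var j =>
          unfold Term.code at hτ
          have := j.2
          omega
        | app i m h ts =>
          unfold Term.code at hτ
          omega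
      · rintro ⟨_, h⟩
        exact ⟨.var ⟨k, by omega⟩, rfl⟩
    · have hk : k = Nat.pair k.unpair.1 k.unpair.2 := (Nat.pair_unpair k).symm
      generalize k.unpair.1 = i at hk
      generalize k.unpair.2 = m at hk
      subst hk
      rw [wt_app]
      have h2 : ∀ s ∈ al m, s < 2 * Nat.pair i m + 1 := by
        intro s hs
        have := mem_al hs
        have := Nat.right_le_pair i m
        omega
      constructor
      · rintro ⟨τ, hτ⟩
        cases τ with
        | var j =>
          unfold Term.code at hτ
          omega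
        | app i' m' h ts =>
          unfold Term.code at hτ
          have h3 : Nat.pair i' (encode (List.ofFn fun j => (ts j).code)) = Nat.pair i m := by
            omega
          obtain ⟨rfl, rfl⟩ := Nat.pair_eq_pair.1 h3
          rw [al_encode] at h2 ⊢
          have h4 : ∀ s ∈ List.ofFn fun j => (ts j).code, WT S s ≠ 0 ∧ WT S s ≤ n + 1 := by
            intro s hs
            have h5 := h2 s hs
            rw [List.mem_ofFn] at hs
            obtain ⟨j, rfl⟩ := hs
            exact (ih _ h5).1 ⟨ts j, rfl⟩
          rw [if_pos]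
          · refine ⟨by have := mx_pos ((List.ofFn fun j => (ts j).code).map (WT S)); omega, ?_⟩
            rw [mx_le (by omega)]
            intro s hs
            rw [List.mem_map] at hs
            obtain ⟨a, ha, rfl⟩ := hs
            exact (h4 a ha).2
          · refine ⟨by rw [List.length_ofFn]; exact h, fun s hs => ?_⟩
            rw [List.mem_map] at hs
            obtain ⟨a, ha, rfl⟩ := hs
            exact (h4 a ha).1
      · split_ifs with hc
        · rintro ⟨_, h3⟩
          rw [mx_le (by omega)] at h3
          have h4 : ∀ j : Fin (al m).length, ∃ τ : Term S n, τ.code = (al m).get j := by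
            intro j
            have h5 : (al m).get j ∈ al m := List.get_mem _ _
            refine (ih _ (h2 _ h5)).2 ⟨hc.2 _ (List.mem_map_of_mem h5),
              h3 _ (List.mem_map_of_mem h5)⟩
          choose ts hts using h4
          refine ⟨.app i _ hc.1 ts, ?_⟩
          unfold Term.code
          simp only [hts, List.ofFn_get, encode_al]
        · rintro ⟨h, _⟩
          exact (h rfl).elim

variable (S)

open Classical in
/-- one step of the recursion for the formulas -/
noncomputable def gF (L : List ℕ) : ℕ :=
  if L.length.unpair.1 = 0 then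
    (if WT S L.length.unpair.2.unpair.1 ≠ 0 ∧ WT S L.length.unpair.2.unpair.2 ≠ 0 then
      max (WT S L.length.unpair.2.unpair.1) (WT S L.length.unpair.2.unpair.2) else 0)
  else if L.length.unpair.1 = 1 then
    (if S.rel L.length.unpair.2.unpair.1 = some (al L.length.unpair.2.unpair.2).length ∧
      nz ((al L.length.unpair.2.unpair.2).map (WT S)) then
      mx ((al L.length.unpair.2.unpair.2).map (WT S)) else 0)
  else if L.length.unpair.1 = 2 then L.getD L.length.unpair.2 0
  else if L.length.unpair.1 = 3 then
    (if L.getD L.length.unpair.2.unpair.1 0 ≠ 0 ∧ L.getD L.length.unpair.2.unpair.2 0 ≠ 0 then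
      max (L.getD L.length.unpair.2.unpair.1 0) (L.getD L.length.unpair.2.unpair.2 0) else 0)
  else if L.length.unpair.1 = 4 then
    (if L.getD L.length.unpair.2 0 = 0 then 0 else max (L.getD L.length.unpair.2 0 - 1) 1)
  else 0

noncomputable def WF (x : ℕ) : ℕ := cv (gF S) x

variable {S}

theorem c_map {f : α → List ℕ} {g : ℕ → ℕ} (hf : Computable f) (hg : Computable g) :
    Computable fun a => (f a).map g := by
  have h1 : Computable fun a => (List.range (f a).length).map fun i => g ((f a).getD i 0) := by
    refine c_tab (f := fun a => (f a).length) (g := fun a i => g ((f a).getD i 0)) (c_lenn hf) ?_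
    exact hg.comp ((Primrec.list_getD 0).to_comp.comp (hf.comp (c_fst c_id)) (c_snd c_id))
  refine h1.of_eq fun a => ?_
  refine List.ext_getElem (by simp) fun i h2 h3 => ?_
  have h4 : i < (f a).length := by simpa using h2
  simp [h4]

theorem c_get {f : α → List ℕ} {g : α → ℕ} (hf : Computable f) (hg : Computable g) :
    Computable fun a => (f a).getD (g a) 0 :=
  (Primrec.list_getD 0).to_comp.comp hf hg

theorem c_gF (hS : S.IsComputable) : Computable (gF S) := by
  classical
  unfold gF
  have hl : Computable fun L : List ℕ => L.length := c_lenn c_id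
  have h1 : Computable fun L : List ℕ => L.length.unpair.1 := c_up1 hl
  have h2 : Computable fun L : List ℕ => L.length.unpair.2 := c_up2 hl
  have h21 : Computable fun L : List ℕ => L.length.unpair.2.unpair.1 := c_up1 h2
  have h22 : Computable fun L : List ℕ => L.length.unpair.2.unpair.2 := c_up2 h2
  have w1 : Computable fun L : List ℕ => WT S L.length.unpair.2.unpair.1 := (c_WT hS).comp h21
  have w2 : Computable fun L : List ℕ => WT S L.length.unpair.2.unpair.2 := (c_WT hS).comp h22
  have ha : Computable fun L : List ℕ => al L.length.unpair.2.unpair.2 := c_al h22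
  have hm : Computable fun L : List ℕ => (al L.length.unpair.2.unpair.2).map (WT S) :=
    c_map (f := fun L : List ℕ => al L.length.unpair.2.unpair.2) ha (c_WT hS)
  have g1 : Computable fun L : List ℕ => L.getD L.length.unpair.2.unpair.1 0 := c_get c_id h21
  have g2 : Computable fun L : List ℕ => L.getD L.length.unpair.2.unpair.2 0 := c_get c_id h22
  have g0 : Computable fun L : List ℕ => L.getD L.length.unpair.2 0 := c_get c_id h2
  have k1 : Computable fun L : List ℕ => some (al L.length.unpair.2.unpair.2).length :=
    Computable.option_some.comp (c_lenn ha)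
  have k2 : Computable fun L : List ℕ => S.rel L.length.unpair.2.unpair.1 := hS.1.comp h21
  have k3 : ComputablePred fun L : List ℕ => S.rel L.length.unpair.2.unpair.1 =
      some (al L.length.unpair.2.unpair.2).length ∧
      nz ((al L.length.unpair.2.unpair.2).map (WT S)) := p_and (p_eqo k2 k1) (p_nz hm)
  have k4 : Computable fun L : List ℕ => if S.rel L.length.unpair.2.unpair.1 =
      some (al L.length.unpair.2.unpair.2).length ∧
      nz ((al L.length.unpair.2.unpair.2).map (WT S)) then
      mx ((al L.length.unpair.2.unpair.2).map (WT S)) else 0 := c_ite k3 (c_mx hm) (c_const 0)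
  have k5 : Computable fun L : List ℕ => if WT S L.length.unpair.2.unpair.1 ≠ 0 ∧
      WT S L.length.unpair.2.unpair.2 ≠ 0 then
      max (WT S L.length.unpair.2.unpair.1) (WT S L.length.unpair.2.unpair.2) else 0 :=
    c_ite (p_and (p_not (p_eq w1 (c_const 0))) (p_not (p_eq w2 (c_const 0)))) (c_max w1 w2)
      (c_const 0)
  have k6 : Computable fun L : List ℕ => if L.getD L.length.unpair.2.unpair.1 0 ≠ 0 ∧
      L.getD L.length.unpair.2.unpair.2 0 ≠ 0 then
      max (L.getD L.length.unpair.2.unpair.1 0) (L.getD L.length.unpair.2.unpair.2 0) else 0 :=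
    c_ite (p_and (p_not (p_eq g1 (c_const 0))) (p_not (p_eq g2 (c_const 0)))) (c_max g1 g2)
      (c_const 0)
  have k7 : Computable fun L : List ℕ => if L.getD L.length.unpair.2 0 = 0 then 0
      else max (L.getD L.length.unpair.2 0 - 1) 1 :=
    c_ite (p_eq g0 (c_const 0)) (c_const 0) (c_max (c_sub g0 (c_const 1)) (c_const 1))
  exact c_ite (p_eq h1 (c_const 0)) k5 (c_ite (p_eq h1 (c_const 1)) k4 (c_ite
    (p_eq h1 (c_const 2)) g0 (c_ite (p_eq h1 (c_const 3)) k6 (c_ite (p_eq h1 (c_const 4)) k7
    (c_const 0)))))

theorem c_WF (hS : S.IsComputable) : Computable (WF S) := by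
  have h := c_cv (α := ℕ) (g := fun _ => gF S) ((c_gF hS).comp (c_snd c_id))
  exact h.comp ((c_const 0).pair c_id)

open Classical in
theorem wf_eq (s t : ℕ) : WF S (Nat.pair 0 (Nat.pair s t)) =
    if WT S s ≠ 0 ∧ WT S t ≠ 0 then max (WT S s) (WT S t) else 0 := by
  have h4 := length_cov (gF S) (Nat.pair 0 (Nat.pair s t))
  show gF S (cov (gF S) (Nat.pair 0 (Nat.pair s t))) = _
  generalize cov (gF S) (Nat.pair 0 (Nat.pair s t)) = L at h4
  unfold gF
  simp only [h4, Nat.unpair_pair, if_true]

open Classical in
theorem wf_rel (i m : ℕ) : WF S (Nat.pair 1 (Nat.pair i m)) =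
    if S.rel i = some (al m).length ∧ nz ((al m).map (WT S)) then
      mx ((al m).map (WT S)) else 0 := by
  have h4 := length_cov (gF S) (Nat.pair 1 (Nat.pair i m))
  show gF S (cov (gF S) (Nat.pair 1 (Nat.pair i m))) = _
  generalize cov (gF S) (Nat.pair 1 (Nat.pair i m)) = L at h4
  unfold gF
  simp only [h4, Nat.unpair_pair, one_ne_zero, if_false, if_true]

theorem wf_neg (y : ℕ) : WF S (Nat.pair 2 y) = WF S y := by
  have h : (cov (gF S) (Nat.pair 2 y)).getD y 0 = WF S y :=
    getD_cov _ _ _ _ (lt_pair_right (by omega))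
  have h4 := length_cov (gF S) (Nat.pair 2 y)
  show gF S (cov (gF S) (Nat.pair 2 y)) = _
  generalize cov (gF S) (Nat.pair 2 y) = L at h h4
  unfold gF
  simp only [h4, Nat.unpair_pair, if_true, h]
  rw [if_neg (by omega), if_neg (by omega)]

open Classical in
theorem wf_and (x y : ℕ) : WF S (Nat.pair 3 (Nat.pair x y)) =
    if WF S x ≠ 0 ∧ WF S y ≠ 0 then max (WF S x) (WF S y) else 0 := by
  have h0 : Nat.pair x y < Nat.pair 3 (Nat.pair x y) := lt_pair_right (by omega)
  have h1 : (cov (gF S) (Nat.pair 3 (Nat.pair x y))).getD x 0 = WF S x :=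
    getD_cov _ _ _ _ ((Nat.left_le_pair x y).trans_lt h0)
  have h2 : (cov (gF S) (Nat.pair 3 (Nat.pair x y))).getD y 0 = WF S y :=
    getD_cov _ _ _ _ ((Nat.right_le_pair x y).trans_lt h0)
  have h4 := length_cov (gF S) (Nat.pair 3 (Nat.pair x y))
  show gF S (cov (gF S) (Nat.pair 3 (Nat.pair x y))) = _
  generalize cov (gF S) (Nat.pair 3 (Nat.pair x y)) = L at h1 h2 h4
  unfold gF
  simp only [h4, Nat.unpair_pair, if_true, h1, h2]
  rw [if_neg (by omega), if_neg (by omega), if_neg (by omega)]

open Classical in
theorem wf_ex (y : ℕ) : WF S (Nat.pair 4 y) =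
    if WF S y = 0 then 0 else max (WF S y - 1) 1 := by
  have h : (cov (gF S) (Nat.pair 4 y)).getD y 0 = WF S y :=
    getD_cov _ _ _ _ (lt_pair_right (by omega))
  have h4 := length_cov (gF S) (Nat.pair 4 y)
  show gF S (cov (gF S) (Nat.pair 4 y)) = _
  generalize cov (gF S) (Nat.pair 4 y) = L at h h4
  unfold gF
  simp only [h4, Nat.unpair_pair, if_true, h]
  rw [if_neg (by omega), if_neg (by omega), if_neg (by omega), if_neg (by omega)]

theorem wf_other (t y : ℕ) (h : 5 ≤ t) : WF S (Nat.pair t y) = 0 := by
  have h4 := length_cov (gF S) (Nat.pair t y)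
  show gF S (cov (gF S) (Nat.pair t y)) = _
  generalize cov (gF S) (Nat.pair t y) = L at h4
  unfold gF
  simp only [h4, Nat.unpair_pair]
  rw [if_neg (by omega), if_neg (by omega), if_neg (by omega), if_neg (by omega),
    if_neg (by omega)]

theorem wf_code {n : ℕ} (φ : Fml S n) : WF S φ.code ≠ 0 ∧ WF S φ.code ≤ n + 1 := by
  induction φ with
  | @eq n s t =>
    unfold Fml.code
    have h1 := (wt_iff n s.code).1 ⟨s, rfl⟩
    have h2 := (wt_iff n t.code).1 ⟨t, rfl⟩
    rw [wf_eq, if_pos ⟨h1.1, h2.1⟩]
    omega
  | @rel n i m h ts =>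
    unfold Fml.code
    rw [wf_rel, al_encode, if_pos]
    · refine ⟨by have := mx_pos ((List.ofFn fun j => (ts j).code).map (WT S)); omega, ?_⟩
      rw [mx_le (by omega)]
      intro s hs
      rw [List.mem_map] at hs
      obtain ⟨a, ha, rfl⟩ := hs
      rw [List.mem_ofFn] at ha
      obtain ⟨j, rfl⟩ := ha
      exact ((wt_iff n _).1 ⟨ts j, rfl⟩).2
    · refine ⟨by rw [List.length_ofFn]; exact h, fun s hs => ?_⟩
      rw [List.mem_map] at hs
      obtain ⟨a, ha, rfl⟩ := hs
      rw [List.mem_ofFn] at ha
      obtain ⟨j, rfl⟩ := ha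
      exact ((wt_iff n _).1 ⟨ts j, rfl⟩).1
  | neg φ ih =>
    unfold Fml.code
    rw [wf_neg]
    exact ih
  | and φ ψ ih1 ih2 =>
    unfold Fml.code
    rw [wf_and, if_pos ⟨ih1.1, ih2.1⟩]
    omega
  | ex φ ih =>
    unfold Fml.code
    rw [wf_ex, if_neg ih.1]
    omega

theorem code_wf : ∀ (x n : ℕ), WF S x ≠ 0 → WF S x ≤ n + 1 → ∃ φ : Fml S n, φ.code = x := by
  intro x
  induction x using Nat.strong_induction_on with
  | _ x ih =>
    intro n
    have hx : x = Nat.pair x.unpair.1 x.unpair.2 := (Nat.pair_unpair x).symm
    generalize x.unpair.1 = t at hx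
    generalize x.unpair.2 = y at hx
    subst hx
    rcases Nat.lt_or_ge t 5 with ht | ht
    · have hy : y = Nat.pair y.unpair.1 y.unpair.2 := (Nat.pair_unpair y).symm
      interval_cases t
      · generalize y.unpair.1 = s at hy
        generalize y.unpair.2 = r at hy
        subst hy
        rw [wf_eq]
        split_ifs with hc
        · intro _ h2
          obtain ⟨σ, hσ⟩ := (wt_iff n s).2 ⟨hc.1, by omega⟩
          obtain ⟨τ, hτ⟩ := (wt_iff n r).2 ⟨hc.2, by omega⟩
          exact ⟨.eq σ τ, by unfold Fml.code; rw [hσ, hτ]⟩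
        · intro h
          exact (h rfl).elim
      · generalize y.unpair.1 = i at hy
        generalize y.unpair.2 = m at hy
        subst hy
        rw [wf_rel]
        split_ifs with hc
        · intro _ h3
          rw [mx_le (by omega)] at h3
          have h4 : ∀ j : Fin (al m).length, ∃ τ : Term S n, τ.code = (al m).get j := by
            intro j
            have h5 : (al m).get j ∈ al m := List.get_mem _ _
            exact (wt_iff n _).2 ⟨hc.2 _ (List.mem_map_of_mem h5), h3 _ (List.mem_map_of_mem h5)⟩
          choose ts hts using h4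
          refine ⟨.rel i _ hc.1 ts, ?_⟩
          unfold Fml.code
          simp only [hts, List.ofFn_get, encode_al]
        · intro h
          exact (h rfl).elim
      · rw [wf_neg]
        intro h1 h2
        obtain ⟨φ, hφ⟩ := ih y (lt_pair_right (by omega)) n h1 h2
        exact ⟨.neg φ, by unfold Fml.code; rw [hφ]⟩
      · generalize y.unpair.1 = s at hy
        generalize y.unpair.2 = r at hy
        subst hy
        have h0 : Nat.pair s r < Nat.pair 3 (Nat.pair s r) := lt_pair_right (by omega)
        rw [wf_and]
        split_ifs with hc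
        · intro _ h2
          obtain ⟨σ, hσ⟩ := ih s ((Nat.left_le_pair s r).trans_lt h0) n hc.1 (by omega)
          obtain ⟨τ, hτ⟩ := ih r ((Nat.right_le_pair s r).trans_lt h0) n hc.2 (by omega)
          exact ⟨.and σ τ, by unfold Fml.code; rw [hσ, hτ]⟩
        · intro h
          exact (h rfl).elim
      · rw [wf_ex]
        split_ifs with hc
        · intro h
          exact (h rfl).elim
        · intro _ h2
          obtain ⟨φ, hφ⟩ := ih y (lt_pair_right (by omega)) (n + 1) hc (by omega)
          exact ⟨.ex φ, by unfold Fml.code; rw [hφ]⟩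
    · rw [wf_other t y ht]
      intro h
      exact (h rfl).elim

/-- the set of the codes of the sentences is computable -/
theorem wf_iff (x : ℕ) : (∃ φ : Fml S 0, φ.code = x) ↔ WF S x = 1 := by
  constructor
  · rintro ⟨φ, rfl⟩
    have := wf_code φ
    omega
  · intro h
    exact code_wf x 0 (by omega) (by omega)

end wf

end Pool.Agent.Y542.TD
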