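import Mathlib
import Pool.Agent.Y542.TD.Cod

set_option autoImplicit false
set_option maxHeartbeats 400000

namespace Pool.Agent.Y542.TD

open Encodable Denumerable
open Pool.Agent.Helper941 Pool.Agent.Helper941.IsoProb Pool.Agent.Helper941.Zeta

variable {α β : Type} [Primcodable α] [Primcodable β] {S : Sig}

/-- the domain of the functions -/
def Dm (A : Str S) (p : ℕ × List ℕ) : Prop := S.fn p.1 = some p.2.length ∧ ∀ x ∈ p.2, x ∈ A.U

open Classical in
/-- total extensions of the functions -/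
noncomputable def F' (A : Str S) (p : ℕ × List ℕ) : ℕ := if Dm A p then A.F p.1 p.2 else 0

theorem p_allmem {U : Set ℕ} (hU : ComputablePred fun x : ℕ => x ∈ U) {f : α → List ℕ}
    (hf : Computable f) : ComputablePred fun a => ∀ x ∈ f a, x ∈ U := by
  refine (p_ball (f := fun a => (f a).length) (P := fun a i => (f a).getD i 0 ∈ U) (c_lenn hf)
    (computablePred_comp hU (c_get (hf.comp (c_fst c_id)) (c_snd c_id)))).of_eq fun a => ?_
  constructor
  · intro h x hx
    obtain ⟨i, hi, rfl⟩ := List.mem_iff_getElem.1 hx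
    have := h i hi
    rwa [List.getD_eq_getElem _ _ hi] at this
  · intro h i hi
    rw [List.getD_eq_getElem _ _ hi]
    exact h _ (List.getElem_mem _)

theorem p_Dm (hS : S.IsComputable) {A : Str S} (hA : A.IsComputable) : ComputablePred (Dm A) :=
  p_and (p_eqo (hS.2.comp (c_fst c_id)) (Computable.option_some.comp (c_lenn (c_snd c_id))))
    (p_allmem hA.1 (c_snd c_id))

theorem c_F' (hS : S.IsComputable) {A : Str S} (hA : A.IsComputable) : Computable (F' A) := by
  classical
  have h1 : Computable fun p : ℕ × List ℕ => sInf {y | (Dm A p ∧ A.F p.1 p.2 = y) ∨ ¬ Dm A p} := by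
    refine c_least (P := fun p y => (Dm A p ∧ A.F p.1 p.2 = y) ∨ ¬ Dm A p) ?_ fun p => ?_
    · exact p_or hA.2.2 (p_not (computablePred_comp (p_Dm hS hA) (c_fst c_id)))
    · by_cases h : Dm A p
      · exact ⟨_, Or.inl ⟨h, rfl⟩⟩
      · exact ⟨0, Or.inr h⟩
  have h2 := c_ite (p_Dm hS hA) h1 (c_const (α := ℕ × List ℕ) 0)
  refine h2.of_eq fun p => ?_
  unfold F'
  by_cases h : Dm A p
  · rw [if_pos h, if_pos h]
    have h3 : {y | (Dm A p ∧ A.F p.1 p.2 = y) ∨ ¬ Dm A p} = {A.F p.1 p.2} := by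
      ext y
      simp [h, eq_comm]
    rw [h3, csInf_singleton]
  · rw [if_neg h, if_neg h]

/-- one step of the evaluation of terms -/
noncomputable def gV (A : Str S) (v L : List ℕ) : ℕ :=
  if L.length % 2 = 0 then v.getD (L.length / 2) 0
  else F' A ((L.length / 2).unpair.1, mg (al (L.length / 2).unpair.2) L)

/-- the value of the term with the given number -/
noncomputable def tv (A : Str S) (v : List ℕ) (t : ℕ) : ℕ := cv (gV A v) t

theorem c_tv (hS : S.IsComputable) {A : Str S} (hA : A.IsComputable) :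
    Computable fun p : List ℕ × ℕ => tv A p.1 p.2 := by
  refine c_cv (g := gV A) ?_
  unfold gV
  have hl : Computable fun p : List ℕ × List ℕ => p.2.length := c_lenn (c_snd c_id)
  have h2 : Computable fun p : List ℕ × List ℕ => p.2.length / 2 := c_div2 hl
  refine c_ite (p_eq (c_mod2 hl) (c_const 0)) (c_get (c_fst c_id) h2) ?_
  exact (c_F' hS hA).comp ((c_up1 h2).pair (c_mg (c_al (c_up2 h2)) (c_snd c_id)))

theorem tv_var (A : Str S) (v : List ℕ) (k : ℕ) : tv A v (2 * k) = v.getD k 0 := by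
  have h4 := length_cov (gV A v) (2 * k)
  show gV A v (cov (gV A v) (2 * k)) = _
  generalize cov (gV A v) (2 * k) = L at h4
  unfold gV
  rw [h4, if_pos (by omega)]
  congr 1
  omega

theorem tv_app (A : Str S) (v : List ℕ) (i m : ℕ) :
    tv A v (2 * Nat.pair i m + 1) = F' A (i, (al m).map (tv A v)) := by
  have h1 : (2 * Nat.pair i m + 1) / 2 = Nat.pair i m := by omega
  have h2 : ∀ s ∈ al m, s < 2 * Nat.pair i m + 1 := by
    intro s hs
    have := mem_al hs
    have := Nat.right_le_pair i m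
    omega
  have h3 : mg (al m) (cov (gV A v) (2 * Nat.pair i m + 1)) = (al m).map (tv A v) := mg_cov h2
  have h4 := length_cov (gV A v) (2 * Nat.pair i m + 1)
  show gV A v (cov (gV A v) (2 * Nat.pair i m + 1)) = _
  generalize cov (gV A v) (2 * Nat.pair i m + 1) = L at h3 h4
  unfold gV
  rw [h4, if_neg (by omega), h1, Nat.unpair_pair, h3]

theorem tv_code {A : Str S} {n : ℕ} {v : Fin n → ℕ} (hv : ∀ k, v k ∈ A.U) (τ : Term S n) :
    tv A (List.ofFn v) τ.code = τ.val A v ∧ τ.val A v ∈ A.U := by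
  induction τ with
  | var k =>
    unfold Term.code Term.val
    rw [tv_var, List.getD_eq_getElem _ _ (by simp)]
    exact ⟨by simp, hv k⟩
  | app i m h ts ih =>
    unfold Term.code Term.val
    rw [tv_app, al_encode, List.map_ofFn]
    have h1 : (tv A (List.ofFn v) ∘ fun j => (ts j).code) = fun j => (ts j).val A v :=
      funext fun j => (ih j).1
    rw [h1]
    have h2 : Dm A (i, List.ofFn fun j => (ts j).val A v) := by
      refine ⟨by rw [List.length_ofFn]; exact h, fun x hx => ?_⟩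
      rw [List.mem_ofFn] at hx
      obtain ⟨j, rfl⟩ := hx
      exact (ih j).2
    refine ⟨?_, A.closed _ _ h2.1 h2.2⟩
    unfold F'
    rw [if_pos h2]

/-- truth of the atomic formula with the given number -/
def At (A : Str S) (p : ℕ × List ℕ) : Prop :=
  (p.1.unpair.1 = 0 → tv A p.2 p.1.unpair.2.unpair.1 = tv A p.2 p.1.unpair.2.unpair.2) ∧
  (p.1.unpair.1 = 1 → (S.rel p.1.unpair.2.unpair.1 =
    some ((al p.1.unpair.2.unpair.2).map (tv A p.2)).length ∧
    ∀ x ∈ (al p.1.unpair.2.unpair.2).map (tv A p.2), x ∈ A.U) ∧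
    A.R p.1.unpair.2.unpair.1 ((al p.1.unpair.2.unpair.2).map (tv A p.2)))

theorem c_map2 {f : α → List ℕ} {g : α → ℕ → ℕ} (hf : Computable f)
    (hg : Computable fun p : α × ℕ => g p.1 p.2) : Computable fun a => (f a).map (g a) := by
  have h1 : Computable fun a => (List.range (f a).length).map fun i => g a ((f a).getD i 0) := by
    refine c_tab (f := fun a => (f a).length) (g := fun a i => g a ((f a).getD i 0)) (c_lenn hf) ?_
    exact hg.comp ((c_fst c_id).pair (c_get (hf.comp (c_fst c_id)) (c_snd c_id)))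
  refine h1.of_eq fun a => ?_
  refine List.ext_getElem (by simp) fun i h2 h3 => ?_
  have h4 : i < (f a).length := by simpa using h2
  simp [h4]

theorem p_At (hS : S.IsComputable) {A : Str S} (hA : A.IsComputable) : ComputablePred (At A) := by
  have h1 : Computable fun p : ℕ × List ℕ => p.1.unpair.1 := c_up1 (c_fst c_id)
  have h2 : Computable fun p : ℕ × List ℕ => p.1.unpair.2 := c_up2 (c_fst c_id)
  have h21 : Computable fun p : ℕ × List ℕ => p.1.unpair.2.unpair.1 := c_up1 h2
  have h22 : Computable fun p : ℕ × List ℕ => p.1.unpair.2.unpair.2 := c_up2 h2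
  have ht := c_tv hS hA
  have hg : Computable fun q : (ℕ × List ℕ) × ℕ => tv A q.1.2 q.2 :=
    ht.comp (f := fun q : List ℕ × ℕ => tv A q.1 q.2)
      (g := fun q : (ℕ × List ℕ) × ℕ => (q.1.2, q.2)) ((c_snd (c_fst c_id)).pair (c_snd c_id))
  have ha : Computable fun p : ℕ × List ℕ => al p.1.unpair.2.unpair.2 := c_al h22
  have hm : Computable fun p : ℕ × List ℕ => (al p.1.unpair.2.unpair.2).map (tv A p.2) :=
    c_map2 (f := fun p : ℕ × List ℕ => al p.1.unpair.2.unpair.2)
      (g := fun (p : ℕ × List ℕ) t => tv A p.2 t) ha hg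
  have t1 : Computable fun p : ℕ × List ℕ => tv A p.2 p.1.unpair.2.unpair.1 :=
    ht.comp (f := fun q : List ℕ × ℕ => tv A q.1 q.2)
      (g := fun p : ℕ × List ℕ => (p.2, p.1.unpair.2.unpair.1)) ((c_snd c_id).pair h21)
  have t2 : Computable fun p : ℕ × List ℕ => tv A p.2 p.1.unpair.2.unpair.2 :=
    ht.comp (f := fun q : List ℕ × ℕ => tv A q.1 q.2)
      (g := fun p : ℕ × List ℕ => (p.2, p.1.unpair.2.unpair.2)) ((c_snd c_id).pair h22)
  have e1 : ComputablePred fun p : ℕ × List ℕ => p.1.unpair.1 = 0 := p_eq h1 (c_const 0)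
  have e2 : ComputablePred fun p : ℕ × List ℕ =>
      tv A p.2 p.1.unpair.2.unpair.1 = tv A p.2 p.1.unpair.2.unpair.2 := p_eq t1 t2
  have e3 : ComputablePred fun p : ℕ × List ℕ => p.1.unpair.1 = 1 := p_eq h1 (c_const 1)
  have e4 : ComputablePred fun p : ℕ × List ℕ => (S.rel p.1.unpair.2.unpair.1 =
      some ((al p.1.unpair.2.unpair.2).map (tv A p.2)).length ∧
      ∀ x ∈ (al p.1.unpair.2.unpair.2).map (tv A p.2), x ∈ A.U) ∧
      A.R p.1.unpair.2.unpair.1 ((al p.1.unpair.2.unpair.2).map (tv A p.2)) :=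
    computablePred_comp (P := fun p : ℕ × List ℕ =>
      (S.rel p.1 = some p.2.length ∧ ∀ x ∈ p.2, x ∈ A.U) ∧ A.R p.1 p.2)
      (f := fun p : ℕ × List ℕ => (p.1.unpair.2.unpair.1,
        (al p.1.unpair.2.unpair.2).map (tv A p.2))) hA.2.1 (h21.pair hm)
  exact p_and (p_imp e1 e2) (p_imp e3 e4)

theorem at_eq {A : Str S} {n : ℕ} {v : Fin n → ℕ} (hv : ∀ k, v k ∈ A.U) (s t : Term S n) :
    At A ((Fml.eq s t).code, List.ofFn v) ↔ Sat A (Fml.eq s t) v := by
  unfold At Fml.code Sat
  simp only [Nat.unpair_pair, (tv_code hv _).1]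
  simp

theorem at_rel {A : Str S} {n : ℕ} {v : Fin n → ℕ} (hv : ∀ k, v k ∈ A.U) (i m : ℕ)
    (h : S.rel i = some m) (ts : Fin m → Term S n) :
    At A ((Fml.rel i m h ts).code, List.ofFn v) ↔ Sat A (Fml.rel i m h ts) v := by
  unfold At Fml.code Sat
  simp only [Nat.unpair_pair, al_encode, List.map_ofFn]
  have h1 : (tv A (List.ofFn v) ∘ fun j => (ts j).code) = fun j => (ts j).val A v :=
    funext fun j => (tv_code hv _).1
  rw [h1]
  have h2 : S.rel i = some (List.ofFn fun j => (ts j).val A v).length ∧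
      ∀ x ∈ List.ofFn fun j => (ts j).val A v, x ∈ A.U := by
    refine ⟨by rw [List.length_ofFn]; exact h, fun x hx => ?_⟩
    rw [List.mem_ofFn] at hx
    obtain ⟨j, rfl⟩ := hx
    exact (tv_code hv _).2
  simp [h2]

end Pool.Agent.Y542.TD
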