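import Mathlib
import Pool.Agent.H685R3.Om

set_option autoImplicit false
set_option maxHeartbeats 400000

namespace Pool.Agent.Y542.TD

open Encodable Denumerable
open Nat.Partrec (Code)
open Pool.Agent.Helper227 Pool.Agent.H685R3

/-- `∅^(ω)` -/
noncomputable def Zw : ℕ → Bool := om fun _ => false

/-- iterations of uniformly `Σ₁` operators are uniformly reducible to `∅^(ω)` -/
theorem iterate_red {Ψ : (ℕ → Bool) → ℕ → Prop} (hΨ : US Ψ) {T : ℕ → ℕ → Bool}
    (h0 : ∀ z, T 0 z = false) (h1 : ∀ n z, T (n + 1) z = true ↔ Ψ (T n) z) :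
    ∃ g : ℕ × ℕ → ℕ, Computable g ∧ ∀ n z, T n z = Zw (g (n, z)) := by
  obtain ⟨f, hf, ef⟩ := hΨ.to_jump
  obtain ⟨g, hg, eg⟩ := exists_gj
  have hg' : Primrec fun x : Code × ℕ => g (x.1, f x.2) :=
    hg.comp (Primrec.fst.pair (hf.comp Primrec.snd))
  obtain ⟨s, hs, es⟩ := exists_smn hg'
  have key : ∀ n i, ∃ m, m ∈ (s^[n] Code.zero).eval i ∧ T n i = jn (fun _ => false) n m := by
    intro n
    induction n with
    | zero =>
      intro i
      refine ⟨0, ?_, h0 i⟩
      show 0 ∈ (Code.const 0).eval i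
      rw [Code.eval_const]
      exact Part.mem_some 0
    | succ n ih =>
      intro i
      refine ⟨g (s^[n] Code.zero, f i), ?_, ?_⟩
      · rw [Function.iterate_succ_apply']
        exact es _ _
      · have h2 := eg (T n) (jn (fun _ => false) n) (s^[n] Code.zero) ih (f i)
        show _ = jump (jn (fun _ => false) n) _
        rw [← h2]
        have h3 := (h1 n i).trans (ef (T n) i)
        cases h4 : T (n + 1) i <;> cases h5 : jump (T n) (f i) <;> simp_all
  refine ⟨fun x => Nat.pair x.1 (g (s^[x.1 - 1] Code.zero, f x.2)), ?_, fun n z => ?_⟩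
  · have h2 : Primrec fun x : ℕ × ℕ => s^[x.1 - 1] Code.zero :=
      Primrec.nat_iterate (f := fun x : ℕ × ℕ => x.1 - 1) (g := fun _ => Code.zero)
      (h := fun _ c => s c) (Primrec.pred.comp Primrec.fst) (Primrec.const _)
      (hs.comp Primrec.snd)
    exact (Primrec₂.natPair.comp Primrec.fst (hg.comp (h2.pair (hf.comp Primrec.snd)))).to_comp
  · unfold Zw
    rw [om_pair]
    cases n with
    | zero => exact h0 z
    | succ n =>
      have h2 := eg (T n) (jn (fun _ => false) n) (s^[n] Code.zero) (key n) (f z)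
      show _ = jump (jn (fun _ => false) n) _
      rw [Nat.add_sub_cancel, ← h2]
      have h3 := (h1 n z).trans (ef (T n) z)
      cases h4 : T (n + 1) z <;> cases h5 : jump (T n) (f z) <;> simp_all

theorem si_iterate {Ψ : (ℕ → Bool) → ℕ → Prop} (hΨ : US Ψ) {T : ℕ → ℕ → Bool}
    (h0 : ∀ z, T 0 z = false) (h1 : ∀ n z, T (n + 1) z = true ↔ Ψ (T n) z) :
    SI Zw fun x : (ℕ × ℕ) × Bool => T x.1.1 x.1.2 = x.2 := by
  obtain ⟨g, hg, eg⟩ := iterate_red hΨ h0 h1
  refine (SI.comp_computable (f := fun x : (ℕ × ℕ) × Bool => (g x.1, x.2)) (SI.query (B := Zw))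
    ((hg.comp Computable.fst).pair Computable.snd)).of_eq fun x => ?_
  rw [← eg]

/-- `∅^(ω)` decides `Σ₁` questions -/
theorem si_of_s1 {α : Type*} [Primcodable α] {p : α → Prop} (hp : S1 p) :
    SI Zw p ∧ SI Zw fun a => ¬ p a := by
  have h1 : SI (fun _ => false) p := SI.of_s1 hp
  obtain ⟨h2, h3⟩ := h1.decide_jump
  have h4 : TLe (jump fun _ => false) Zw := tLe_jn_om (fun _ => false) 1
  exact ⟨h2.trans h4, h3.trans h4⟩

end Pool.Agent.Y542.TD
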