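import Mathlib
import Pool.Agent.Y542.TD.OJ

set_option autoImplicit false
set_option maxHeartbeats 400000

namespace Pool.Agent.Y542.TD

open Encodable Denumerable
open Nat.Partrec (Code)
open Pool.Agent.Helper227 Pool.Agent.H685R3

/-- the data of a splitting -/
abbrev Q := (List Bool × List Bool) × ℕ × ℕ

def Ext (σ τ : List Bool) : Prop := ∀ i < σ.length, τ[i]? = σ[i]?

theorem ext_iff {σ τ : List Bool} : Ext σ τ ↔ σ <+: τ := by
  unfold Ext
  constructor
  · intro h
    have hl : σ.length ≤ τ.length := by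
      by_contra hc
      have h1 := h τ.length (by omega)
      rw [List.getElem?_eq_none (le_refl _)] at h1
      rw [List.getElem?_eq_getElem (by omega)] at h1
      simp at h1
    have h2 : σ = τ.take σ.length := by
      refine List.ext_getElem (by simp; omega) fun i h3 h4 => ?_
      have h5 := h i h3
      rw [List.getElem?_eq_getElem (by omega), List.getElem?_eq_getElem h3] at h5
      simp only [Option.some.injEq] at h5
      rw [List.getElem_take, h5]
    rw [h2]
    exact List.take_prefix _ _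
  · rintro ⟨ρ, rfl⟩ i hi
    rw [List.getElem?_append_left hi]

theorem prim_ext {α : Type*} [Primcodable α] {f g : α → List Bool} (hf : Primrec f)
    (hg : Primrec g) : PrimrecPred fun a => Ext (f a) (g a) := by
  unfold Ext
  refine PP.all_lt (f := fun a => (f a).length) (p := fun a i => (g a)[i]? = (f a)[i]?) ?_
    (Primrec.list_length.comp hf)
  exact Primrec.eq.comp (Primrec.list_getElem?.comp (hg.comp Primrec.fst) Primrec.snd)
    (Primrec.list_getElem?.comp (hf.comp Primrec.fst) Primrec.snd)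

/-- `q` gives a splitting of the functional number `j` above `σ` -/
def V1 (x : ℕ × List Bool) (q : Q) : Prop :=
  (Ext x.2 q.1.1 ∧ Ext x.2 q.1.2) ∧
    ((Code.evaln q.2.2 (ofNat Code x.1) (encode (q.1.1, q.2.1, false))).isSome = true ∧
    (Code.evaln q.2.2 (ofNat Code x.1) (encode (q.1.2, q.2.1, true))).isSome = true)

theorem prim_V1 : PrimrecPred fun y : (ℕ × List Bool) × Q => V1 y.1 y.2 := by
  have hx : Primrec fun y : (ℕ × List Bool) × Q => y.1.2 := Primrec.snd.comp Primrec.fst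
  have hj : Primrec fun y : (ℕ × List Bool) × Q => ofNat Code y.1.1 :=
    (Primrec.ofNat Code).comp (Primrec.fst.comp Primrec.fst)
  have h1 : Primrec fun y : (ℕ × List Bool) × Q => y.2.1.1 :=
    Primrec.fst.comp (Primrec.fst.comp Primrec.snd)
  have h2 : Primrec fun y : (ℕ × List Bool) × Q => y.2.1.2 :=
    Primrec.snd.comp (Primrec.fst.comp Primrec.snd)
  have hn : Primrec fun y : (ℕ × List Bool) × Q => y.2.2.1 :=
    Primrec.fst.comp (Primrec.snd.comp Primrec.snd)
  have hk : Primrec fun y : (ℕ × List Bool) × Q => y.2.2.2 :=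
    Primrec.snd.comp (Primrec.snd.comp Primrec.snd)
  have he : ∀ {f : (ℕ × List Bool) × Q → ℕ}, Primrec f → PrimrecPred
      fun y : (ℕ × List Bool) × Q => (Code.evaln y.2.2.2 (ofNat Code y.1.1) (f y)).isSome = true :=
    fun {f} hf => Primrec.primrecPred (p := fun y : (ℕ × List Bool) × Q =>
      ((Code.evaln y.2.2.2 (ofNat Code y.1.1) (f y)).isSome : Prop))
      ((Primrec.option_isSome.comp (Code.primrec_evaln.comp ((hk.pair hj).pair hf))).of_eq
        fun y => by simp)
  exact ((prim_ext hx h1).and (prim_ext hx h2)).and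
    ((he (Primrec.encode.comp (h1.pair (hn.pair (Primrec.const false))))).and
    (he (Primrec.encode.comp (h2.pair (hn.pair (Primrec.const true))))))

/-- `m` codes a splitting -/
def V (x : ℕ × List Bool) (m : ℕ) : Prop := ∃ q ∈ (decode (α := Q) m).toList, V1 x q

theorem prim_V : PrimrecPred fun y : (ℕ × List Bool) × ℕ => V y.1 y.2 := by
  unfold V
  refine PP.ex_mem (f := fun y : (ℕ × List Bool) × ℕ => (decode (α := Q) y.2).toList)
    (p := fun y q => V1 y.1 q) ?_ ?_
  · exact prim_V1.comp ((Primrec.fst.comp Primrec.fst).pair Primrec.snd)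
  · exact Primrec.optionToList.comp (Primrec.decode.comp Primrec.snd)

/-- the least code of a splitting -/
def LV (x : ℕ × List Bool) (m : ℕ) : Prop := V x m ∧ ∀ k < m, ¬ V x k

theorem prim_LV : PrimrecPred fun y : (ℕ × List Bool) × ℕ => LV y.1 y.2 := by
  unfold LV
  refine prim_V.and ?_
  refine PP.all_lt (f := fun y : (ℕ × List Bool) × ℕ => y.2) (p := fun y k => ¬ V y.1 k) ?_
    Primrec.snd
  exact (prim_V.comp ((Primrec.fst.comp Primrec.fst).pair Primrec.snd)).not

theorem LV.unique {x : ℕ × List Bool} {m n : ℕ} (h : LV x m) (h' : LV x n) : m = n := by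
  rcases lt_trichotomy m n with h1 | h1 | h1
  · exact (h'.2 m h1 h.1).elim
  · exact h1
  · exact (h.2 n h1 h'.1).elim

theorem exists_LV {x : ℕ × List Bool} (h : ∃ m, V x m) : ∃ m, LV x m := by
  classical
  exact ⟨Nat.find h, Nat.find_spec h, fun k hk => Nat.find_min h hk⟩

/-- components of the number of a step -/
def c1 (s : ℕ) : ℕ := s.unpair.1

def cj (s : ℕ) : ℕ := s.unpair.2.unpair.1

def ci (s : ℕ) : ℕ := s.unpair.2.unpair.2

theorem prim_c1 : Primrec c1 := Primrec.fst.comp Primrec.unpair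

theorem prim_cj : Primrec cj :=
  Primrec.fst.comp (Primrec.unpair.comp (Primrec.snd.comp Primrec.unpair))

theorem prim_ci : Primrec ci :=
  Primrec.snd.comp (Primrec.unpair.comp (Primrec.snd.comp Primrec.unpair))

theorem exists_step (a j i : ℕ) : ∃ s, c1 s = a ∧ cj s = j ∧ ci s = i :=
  ⟨Nat.pair a (Nat.pair j i), by simp [c1], by simp [cj], by simp [ci]⟩

attribute [irreducible] c1 cj ci

variable {C : ℕ → Bool} {X : ℕ → ℕ → Bool}

/-- the first half of a step -/
def H1 (X : ℕ → ℕ → Bool) (s : ℕ) (σ μ : List Bool) : Prop :=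
  (∃ m, LV (cj s, σ) m ∧ ∃ q : Q, decode m = some q ∧
    ((X (c1 s) q.2.1 = true ∧ μ = q.1.1) ∨ (X (c1 s) q.2.1 = false ∧ μ = q.1.2))) ∨
  ((¬ ∃ m, V (cj s, σ) m) ∧ μ = σ)

/-- the second half of a step -/
def H2 (s : ℕ) (μ ρ : List Bool) : Prop :=
  (1 ∈ Code.eval (ofNat Code (ci s)) μ.length ∧ ρ = μ ++ [false]) ∨
  (¬ 1 ∈ Code.eval (ofNat Code (ci s)) μ.length ∧ ρ = μ ++ [true])

theorem H1_ex (s : ℕ) (σ : List Bool) : ∃ μ, H1 X s σ μ := by
  by_cases h : ∃ m, V (cj s, σ) m
  · obtain ⟨m, hm⟩ := exists_LV h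
    obtain ⟨q, hq, _⟩ := hm.1
    have hq' : decode (α := Q) m = some q := by simpa using hq
    cases hX : X (c1 s) q.2.1
    · exact ⟨q.1.2, Or.inl ⟨m, hm, q, hq', Or.inr ⟨hX, rfl⟩⟩⟩
    · exact ⟨q.1.1, Or.inl ⟨m, hm, q, hq', Or.inl ⟨hX, rfl⟩⟩⟩
  · exact ⟨σ, Or.inr ⟨h, rfl⟩⟩

theorem H1_unique {s : ℕ} {σ μ ν : List Bool} (h : H1 X s σ μ) (h' : H1 X s σ ν) : μ = ν := by
  rcases h with ⟨m, hm, q, hq, h1⟩ | ⟨h1, rfl⟩
  · rcases h' with ⟨m', hm', q', hq', h2⟩ | ⟨h2, _⟩
    · have := hm.unique hm'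
      subst this
      rw [hq] at hq'
      have := Option.some.inj hq'
      subst this
      rcases h1 with ⟨a, rfl⟩ | ⟨a, rfl⟩ <;> rcases h2 with ⟨b, rfl⟩ | ⟨b, rfl⟩ <;> simp_all
    · exact (h2 ⟨m, hm.1⟩).elim
  · rcases h' with ⟨m', hm', _⟩ | ⟨_, rfl⟩
    · exact (h1 ⟨m', hm'.1⟩).elim
    · rfl

theorem H1_ext {s : ℕ} {σ μ : List Bool} (h : H1 X s σ μ) : σ <+: μ := by
  rcases h with ⟨m, hm, q, hq, h1⟩ | ⟨h1, rfl⟩
  · obtain ⟨q', hq', h2⟩ := hm.1
    have hq'' : decode (α := Q) m = some q' := by simpa using hq'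
    rw [hq] at hq''
    have := Option.some.inj hq''
    subst this
    rcases h1 with ⟨a, rfl⟩ | ⟨a, rfl⟩
    · exact ext_iff.1 h2.1.1
    · exact ext_iff.1 h2.1.2
  · exact List.prefix_rfl

theorem H2_ex (s : ℕ) (μ : List Bool) : ∃ ρ, H2 s μ ρ := by
  by_cases h : 1 ∈ Code.eval (ofNat Code (ci s)) μ.length
  · exact ⟨_, Or.inl ⟨h, rfl⟩⟩
  · exact ⟨_, Or.inr ⟨h, rfl⟩⟩

theorem H2_unique {s : ℕ} {μ ρ ρ' : List Bool} (h : H2 s μ ρ) (h' : H2 s μ ρ') : ρ = ρ' := by
  rcases h with ⟨h1, rfl⟩ | ⟨h1, rfl⟩ <;> rcases h' with ⟨h2, rfl⟩ | ⟨h2, rfl⟩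
  · rfl
  · exact (h2 h1).elim
  · exact (h1 h2).elim
  · rfl

/-- one step -/
def Stp (X : ℕ → ℕ → Bool) (s : ℕ) (σ ρ : List Bool) : Prop := ∃ μ, H1 X s σ μ ∧ H2 s μ ρ

theorem Stp_ex (s : ℕ) (σ : List Bool) : ∃ ρ, Stp X s σ ρ := by
  obtain ⟨μ, hμ⟩ := H1_ex (X := X) s σ
  obtain ⟨ρ, hρ⟩ := H2_ex s μ
  exact ⟨ρ, μ, hμ, hρ⟩

theorem Stp_unique {s : ℕ} {σ ρ ρ' : List Bool} (h : Stp X s σ ρ) (h' : Stp X s σ ρ') :
    ρ = ρ' := by
  obtain ⟨μ, h1, h2⟩ := h
  obtain ⟨ν, h3, h4⟩ := h'
  have := H1_unique h1 h3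
  subst this
  exact H2_unique h2 h4

theorem si_H1 (hC : ∀ {α : Type} [Primcodable α] {p : α → Prop}, S1 p → SI C p ∧ SI C fun a => ¬ p a)
    (hX : SI C fun x : (ℕ × ℕ) × Bool => X x.1.1 x.1.2 = x.2) :
    SI C fun y : (ℕ × List Bool) × List Bool => H1 X y.1.1 y.1.2 y.2 := by
  unfold H1
  have hs : Primrec fun y : (ℕ × List Bool) × List Bool => y.1.1 := Primrec.fst.comp Primrec.fst
  have hj : Primrec fun y : (ℕ × List Bool) × List Bool => (cj y.1.1, y.1.2) :=
    (prim_cj.comp hs).pair (Primrec.snd.comp Primrec.fst)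
  refine SI.or (SI.ex (p := fun (y : (ℕ × List Bool) × List Bool) m =>
    LV (cj y.1.1, y.1.2) m ∧ ∃ q : Q, decode m = some q ∧
    ((X (c1 y.1.1) q.2.1 = true ∧ y.2 = q.1.1) ∨
      (X (c1 y.1.1) q.2.1 = false ∧ y.2 = q.1.2))) (SI.and ?_ ?_)) (SI.and ?_ ?_)
  · have h1 : Primrec fun z : ((ℕ × List Bool) × List Bool) × ℕ =>
        ((cj z.1.1.1, z.1.1.2), z.2) := (hj.comp Primrec.fst).pair Primrec.snd
    exact SI.comp (p := fun y : (ℕ × List Bool) × ℕ => LV y.1 y.2)
      (f := fun z : ((ℕ × List Bool) × List Bool) × ℕ => ((cj z.1.1.1, z.1.1.2), z.2))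
      (SI.of_prim prim_LV) h1
  · refine SI.ex (p := fun (y : ((ℕ × List Bool) × List Bool) × ℕ) (q : Q) => decode y.2 = some q ∧
      ((X (c1 y.1.1.1) q.2.1 = true ∧ y.1.2 = q.1.1) ∨
        (X (c1 y.1.1.1) q.2.1 = false ∧ y.1.2 = q.1.2))) (SI.and (SI.of_prim ?_)
      (SI.or (SI.and ?_ (SI.of_prim ?_)) (SI.and ?_ (SI.of_prim ?_))))
    · exact Primrec.eq.comp (Primrec.decode.comp (Primrec.snd.comp Primrec.fst))
        (Primrec.option_some.comp Primrec.snd)
    · exact hX.comp (f := fun z : (((ℕ × List Bool) × List Bool) × ℕ) × Q =>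
        ((c1 z.1.1.1.1, z.2.2.1), true)) (((prim_c1.comp (hs.comp (Primrec.fst.comp
          Primrec.fst))).pair (Primrec.fst.comp (Primrec.snd.comp Primrec.snd))).pair
          (Primrec.const true))
    · exact Primrec.eq.comp (Primrec.snd.comp (Primrec.fst.comp Primrec.fst))
        (Primrec.fst.comp (Primrec.fst.comp Primrec.snd))
    · exact hX.comp (f := fun z : (((ℕ × List Bool) × List Bool) × ℕ) × Q =>
        ((c1 z.1.1.1.1, z.2.2.1), false)) (((prim_c1.comp (hs.comp (Primrec.fst.comp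
          Primrec.fst))).pair (Primrec.fst.comp (Primrec.snd.comp Primrec.snd))).pair
          (Primrec.const false))
    · exact Primrec.eq.comp (Primrec.snd.comp (Primrec.fst.comp Primrec.fst))
        (Primrec.snd.comp (Primrec.fst.comp Primrec.snd))
  · refine (hC (α := (ℕ × List Bool) × List Bool) (p := fun y => ∃ m,
      V (cj y.1.1, y.1.2) m) ?_).2
    have h1 : Primrec fun z : ((ℕ × List Bool) × List Bool) × ℕ =>
        ((cj z.1.1.1, z.1.1.2), z.2) := (hj.comp Primrec.fst).pair Primrec.snd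
    exact S1.ex (p := fun (y : (ℕ × List Bool) × List Bool) m =>
      V (cj y.1.1, y.1.2) m) (S1.comp (p := fun y : (ℕ × List Bool) × ℕ => V y.1 y.2)
      (f := fun z : ((ℕ × List Bool) × List Bool) × ℕ => ((cj z.1.1.1, z.1.1.2), z.2))
      (S1.of_prim prim_V) h1)
  · exact SI.of_prim (Primrec.eq.comp Primrec.snd (Primrec.snd.comp Primrec.fst))

theorem si_H2 (hC : ∀ {α : Type} [Primcodable α] {p : α → Prop}, S1 p → SI C p ∧ SI C fun a => ¬ p a) :
    SI C fun y : (ℕ × List Bool) × List Bool => H2 y.1.1 y.1.2 y.2 := by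
  unfold H2
  have hs : Primrec fun y : (ℕ × List Bool) × List Bool => y.1.1 := Primrec.fst.comp Primrec.fst
  have h1 : S1 fun y : (ℕ × List Bool) × List Bool =>
      1 ∈ Code.eval (ofNat Code (ci y.1.1)) y.1.2.length :=
    s1_graph.comp (f := fun y : (ℕ × List Bool) × List Bool =>
      ((ofNat Code (ci y.1.1), y.1.2.length), 1))
      ((((Primrec.ofNat Code).comp (prim_ci.comp hs)).pair (Primrec.list_length.comp
        (Primrec.snd.comp Primrec.fst))).pair (Primrec.const 1))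
  obtain ⟨h2, h3⟩ := hC h1
  refine SI.or (SI.and h2 (SI.of_prim ?_)) (SI.and h3 (SI.of_prim ?_))
  · exact Primrec.eq.comp Primrec.snd (Primrec.list_append.comp (Primrec.snd.comp Primrec.fst)
      (Primrec.const [false]))
  · exact Primrec.eq.comp Primrec.snd (Primrec.list_append.comp (Primrec.snd.comp Primrec.fst)
      (Primrec.const [true]))

theorem si_Stp (hC : ∀ {α : Type} [Primcodable α] {p : α → Prop}, S1 p → SI C p ∧ SI C fun a => ¬ p a)
    (hX : SI C fun x : (ℕ × ℕ) × Bool => X x.1.1 x.1.2 = x.2) :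
    SI C fun y : (ℕ × List Bool) × List Bool => Stp X y.1.1 y.1.2 y.2 := by
  refine SI.ex (p := fun (y : (ℕ × List Bool) × List Bool) μ =>
    H1 X y.1.1 y.1.2 μ ∧ H2 y.1.1 μ y.2) (SI.and ?_ ?_)
  · exact (si_H1 hC hX).comp (f := fun z : ((ℕ × List Bool) × List Bool) × List Bool =>
      (z.1.1, z.2)) ((Primrec.fst.comp Primrec.fst).pair Primrec.snd)
  · exact (si_H2 hC).comp (f := fun z : ((ℕ × List Bool) × List Bool) × List Bool =>
      ((z.1.1.1, z.2), z.1.2)) (((Primrec.fst.comp (Primrec.fst.comp Primrec.fst)).pair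
        Primrec.snd).pair (Primrec.snd.comp Primrec.fst))

/-- the construction -/
noncomputable def sq (X : ℕ → ℕ → Bool) : ℕ → List Bool
  | 0 => []
  | s + 1 => (Stp_ex (X := X) s (sq X s)).choose

theorem sq_spec (s : ℕ) : Stp X s (sq X s) (sq X (s + 1)) :=
  (Stp_ex (X := X) s (sq X s)).choose_spec

theorem si_sq (hC : ∀ {α : Type} [Primcodable α] {p : α → Prop}, S1 p → SI C p ∧ SI C fun a => ¬ p a)
    (hX : SI C fun x : (ℕ × ℕ) × Bool => X x.1.1 x.1.2 = x.2) :
    SI C fun y : ℕ × List Bool => sq X y.1 = y.2 := by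
  have h1 : SI C fun y : ℕ × List Bool => ∃ L : List (List Bool),
      (L.getD 0 [] = [] ∧ L.getD y.1 [] = y.2) ∧
      ∀ i < y.1, Stp X i (L.getD i []) (L.getD (i + 1) []) := by
    refine SI.ex (p := fun (y : ℕ × List Bool) (L : List (List Bool)) =>
      (L.getD 0 [] = [] ∧ L.getD y.1 [] = y.2) ∧
      ∀ i < y.1, Stp X i (L.getD i []) (L.getD (i + 1) [])) (SI.and (SI.and (SI.of_prim ?_)
      (SI.of_prim ?_)) ?_)
    · exact Primrec.eq.comp ((Primrec.list_getD []).comp Primrec.snd (Primrec.const 0))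
        (Primrec.const [])
    · exact Primrec.eq.comp ((Primrec.list_getD []).comp Primrec.snd (Primrec.fst.comp
        Primrec.fst)) (Primrec.snd.comp Primrec.fst)
    · refine SI.all_lt (α := (ℕ × List Bool) × List (List Bool)) (p := fun y i =>
        Stp X i (y.2.getD i []) (y.2.getD (i + 1) [])) (f := fun y => y.1.1) ?_
        (Primrec.fst.comp Primrec.fst)
      exact (si_Stp hC hX).comp (f := fun z : ((ℕ × List Bool) × List (List Bool)) × ℕ =>
        ((z.2, z.1.2.getD z.2 []), z.1.2.getD (z.2 + 1) []))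
        ((Primrec.snd.pair ((Primrec.list_getD []).comp (Primrec.snd.comp Primrec.fst)
          Primrec.snd)).pair ((Primrec.list_getD []).comp (Primrec.snd.comp Primrec.fst)
          (Primrec.succ.comp Primrec.snd)))
  refine h1.of_eq fun y => ?_
  constructor
  · rintro ⟨L, ⟨h2, h3⟩, h4⟩
    have h5 : ∀ i ≤ y.1, sq X i = L.getD i [] := by
      intro i
      induction i with
      | zero => intro _; rw [h2]; rfl
      | succ i ih =>
        intro hi
        have h6 := sq_spec (X := X) i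
        rw [ih (by omega)] at h6
        exact Stp_unique h6 (h4 i (by omega))
    rw [h5 y.1 le_rfl, h3]
  · intro h
    refine ⟨(List.range (y.1 + 1)).map (sq X), ⟨?_, ?_⟩, fun i hi => ?_⟩
    · simp [List.getD_eq_getElem?_getD, sq]
    · rw [List.getD_eq_getElem _ _ (by simp)]
      simpa using h
    · rw [List.getD_eq_getElem _ _ (by simp; omega), List.getD_eq_getElem _ _ (by simp; omega)]
      simpa using sq_spec i

theorem sq_succ (s : ℕ) : sq X s <+: sq X (s + 1) ∧ (sq X s).length < (sq X (s + 1)).length := by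
  obtain ⟨μ, h1, h2⟩ := sq_spec (X := X) s
  have h3 := H1_ext h1
  have h4 : μ <+: sq X (s + 1) ∧ (sq X (s + 1)).length = μ.length + 1 := by
    rcases h2 with ⟨_, h⟩ | ⟨_, h⟩ <;> rw [h] <;> simp
  exact ⟨h3.trans h4.1, by have := h3.length_le; omega⟩

theorem sq_mono {s t : ℕ} (h : s ≤ t) : sq X s <+: sq X t := by
  induction t, h using Nat.le_induction with
  | base => exact List.prefix_rfl
  | succ t _ ih => exact ih.trans (sq_succ t).1

theorem sq_length (s : ℕ) : s ≤ (sq X s).length := by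
  induction s with
  | zero => exact Nat.zero_le _
  | succ s ih => have := (sq_succ (X := X) s).2; omega

/-- the generic set -/
noncomputable def GD (X : ℕ → ℕ → Bool) (n : ℕ) : Bool := (sq X (n + 1)).getD n false

theorem gd_eq {n s : ℕ} (h : n < (sq X s).length) : (sq X s)[n]? = some (GD X n) := by
  unfold GD
  have h1 : n < (sq X (n + 1)).length := by have := sq_length (X := X) (n + 1); omega
  rw [List.getD_eq_getElem _ _ h1]
  rcases le_total s (n + 1) with h2 | h2
  · obtain ⟨ρ, hρ⟩ := sq_mono (X := X) h2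
    rw [List.getElem?_eq_getElem h]
    congr 1
    simp only [← hρ]
    rw [List.getElem_append_left h]
  · obtain ⟨ρ, hρ⟩ := sq_mono (X := X) h2
    rw [List.getElem?_eq_getElem h]
    congr 1
    simp only [← hρ]
    rw [List.getElem_append_left h1]

theorem pre_gd {s : ℕ} {μ : List Bool} (h : μ <+: sq X s) : pre (GD X) μ.length = μ := by
  refine List.ext_getElem (by simp) fun i h1 h2 => ?_
  rw [getElem_pre]
  have h3 := gd_eq (X := X) (n := i) (s := s) (by have := h.length_le; omega)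
  obtain ⟨ρ, hρ⟩ := h
  rw [← hρ, List.getElem?_append_left h2, List.getElem?_eq_getElem h2] at h3
  exact (Option.some.inj h3).symm

theorem tLe_gd (hC : ∀ {α : Type} [Primcodable α] {p : α → Prop}, S1 p → SI C p ∧ SI C fun a => ¬ p a)
    (hX : SI C fun x : (ℕ × ℕ) × Bool => X x.1.1 x.1.2 = x.2) : TLe (GD X) C := by
  rw [tLe_iff_SI]
  have h1 : SI C fun x : ℕ × Bool => ∃ σ : List Bool, sq X (x.1 + 1) = σ ∧
      σ.getD x.1 false = x.2 := by
    refine SI.ex (p := fun (x : ℕ × Bool) (σ : List Bool) => sq X (x.1 + 1) = σ ∧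
      σ.getD x.1 false = x.2) (SI.and ?_ (SI.of_prim ?_))
    · exact (si_sq hC hX).comp (f := fun z : (ℕ × Bool) × List Bool => (z.1.1 + 1, z.2))
        ((Primrec.succ.comp (Primrec.fst.comp Primrec.fst)).pair Primrec.snd)
    · exact Primrec.eq.comp ((Primrec.list_getD false).comp Primrec.snd (Primrec.fst.comp
        Primrec.fst)) (Primrec.snd.comp Primrec.fst)
  exact h1.of_eq fun x => by unfold GD; simp

theorem gd_not_computable : ¬ Computable (GD X) := by
  intro h
  have h1 : Computable fun n => (GD X n).toNat := by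
    refine (Computable.cond h (Computable.const 1) (Computable.const 0)).of_eq fun n => ?_
    cases GD X n <;> rfl
  obtain ⟨c, hc⟩ := Code.exists_code.1 (Partrec.nat_iff.1 h1.partrec)
  obtain ⟨s, _, _, hs⟩ := exists_step 0 0 (encode c)
  obtain ⟨μ, _, h3⟩ := sq_spec (X := X) s
  unfold H2 at h3
  rw [hs, ofNat_encode, hc] at h3
  have h4 : ∀ b, sq X (s + 1) = μ ++ [b] → GD X μ.length = b := by
    intro b hb
    have h5 := gd_eq (X := X) (n := μ.length) (s := s + 1) (by rw [hb]; simp)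
    rw [hb] at h5
    simp at h5
    exact h5.symm
  rcases h3 with ⟨h5, h6⟩ | ⟨h5, h6⟩
  · have h7 := h4 _ h6
    have h8 : (1 : ℕ) = (GD X μ.length).toNat := Part.mem_some_iff.1 h5
    rw [h7] at h8
    exact absurd h8 (by decide)
  · have h7 := h4 _ h6
    apply h5
    show 1 ∈ Part.some (GD X μ.length).toNat
    rw [h7]
    exact Part.mem_some 1

theorem computable_of_tLe {s : ℕ} (h : TLe (X s) (GD X)) : Computable (X s) := by
  obtain ⟨E, hE, mE, eE⟩ := tLe_iff.1 h
  obtain ⟨c, hc⟩ := Code.exists_code.1 hE.re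
  have hcE : ∀ y : List Bool × ℕ × Bool, E y ↔ (Code.eval c (encode y)).Dom := by
    intro y
    rw [hc]
    simp [Part.assert]
  have hk : ∀ y : List Bool × ℕ × Bool, E y ↔ ∃ k, (Code.evaln k c (encode y)).isSome = true := by
    intro y
    rw [hcE]
    constructor
    · intro h
      obtain ⟨v, hv⟩ := Part.dom_iff_mem.1 h
      obtain ⟨k, hk⟩ := Code.evaln_complete.1 hv
      exact ⟨k, by rw [Option.isSome_iff_exists]; exact ⟨v, hk⟩⟩
    · rintro ⟨k, hk⟩
      rw [Option.isSome_iff_exists] at hk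
      obtain ⟨v, hv⟩ := hk
      exact Part.dom_iff_mem.2 ⟨v, Code.evaln_sound hv⟩
  obtain ⟨t, ht1, ht2, _⟩ := exists_step s (encode c) 0
  obtain ⟨μ, h1, h2⟩ := sq_spec (X := X) t
  have hμ : μ <+: sq X (t + 1) := by
    rcases h2 with ⟨_, h⟩ | ⟨_, h⟩ <;> rw [h] <;> simp
  unfold H1 at h1
  rw [ht1, ht2] at h1
  rcases h1 with ⟨m, hm, q, hq, h3⟩ | ⟨h3, _⟩
  · exfalso
    obtain ⟨q', hq', h4⟩ := hm.1
    have hq'' : decode (α := Q) m = some q' := by simpa using hq'
    rw [hq] at hq''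
    have := Option.some.inj hq''
    subst this
    obtain ⟨_, h5, h6⟩ := h4
    simp only [ofNat_encode] at h5 h6
    rcases h3 with ⟨h7, rfl⟩ | ⟨h7, rfl⟩
    · have h8 : X s q.2.1 = false := (eE _ _).2 ⟨q.1.1.length, by
        rw [pre_gd hμ]; exact (hk _).2 ⟨_, h5⟩⟩
      rw [h7] at h8
      exact absurd h8 (by decide)
    · have h8 : X s q.2.1 = true := (eE _ _).2 ⟨q.1.2.length, by
        rw [pre_gd hμ]; exact (hk _).2 ⟨_, h6⟩⟩
      rw [h7] at h8
      exact absurd h8 (by decide)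
  · refine computable_of_graph ?_
    have h4 : S1 fun x : ℕ × Bool => ∃ τ : List Bool, Ext (sq X t) τ ∧ E (τ, x) := by
      refine S1.ex (p := fun (x : ℕ × Bool) (τ : List Bool) => Ext (sq X t) τ ∧ E (τ, x))
        (S1.and (S1.of_prim ?_) ?_)
      · exact prim_ext (Primrec.const _) Primrec.snd
      · exact hE.comp (Primrec.snd.pair Primrec.fst)
    refine h4.of_eq fun x => ?_
    obtain ⟨n, b⟩ := x
    have key : X s n = b → ∃ τ, Ext (sq X t) τ ∧ E (τ, n, b) := by
      intro h5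
      obtain ⟨r, hr⟩ := (eE n b).1 h5
      refine ⟨pre (GD X) (max r (sq X t).length), ext_iff.2 ?_, mE _ _ _ _ (pre_prefix _
        (le_max_left _ _)) hr⟩
      have h6 : sq X t = pre (GD X) (sq X t).length := (pre_gd (s := t) List.prefix_rfl).symm
      conv_lhs => rw [h6]
      exact pre_prefix _ (le_max_right _ _)
    constructor
    · rintro ⟨τ, h5, h6⟩
      by_contra h7
      have h7 : X s n ≠ b := h7
      obtain ⟨k1, hk1⟩ := (hk _).1 h6
      have h8 : ∃ τ', Ext (sq X t) τ' ∧ E (τ', n, !b) := by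
        have : X s n = !b := by cases hx : X s n <;> cases b <;> simp_all
        exact (by
          obtain ⟨r, hr⟩ := (eE n (!b)).1 this
          refine ⟨pre (GD X) (max r (sq X t).length), ext_iff.2 ?_, mE _ _ _ _ (pre_prefix _
            (le_max_left _ _)) hr⟩
          have h6 : sq X t = pre (GD X) (sq X t).length := (pre_gd (s := t) List.prefix_rfl).symm
          conv_lhs => rw [h6]
          exact pre_prefix _ (le_max_right _ _))
      obtain ⟨τ', h9, h10⟩ := h8
      obtain ⟨k2, hk2⟩ := (hk _).1 h10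
      have hmono : ∀ {k l : ℕ} {y : ℕ}, k ≤ l → (Code.evaln k c y).isSome = true →
          (Code.evaln l c y).isSome = true := by
        intro k l y hkl h
        rw [Option.isSome_iff_exists] at h ⊢
        obtain ⟨v, hv⟩ := h
        exact ⟨v, Code.evaln_mono hkl hv⟩
      have hk1' := hmono (le_max_left k1 k2) hk1
      have hk2' := hmono (le_max_right k1 k2) hk2
      apply h3
      cases b
      · refine ⟨encode (((τ, τ'), n, max k1 k2) : Q), ((τ, τ'), n, max k1 k2), by simp, ⟨h5, h9⟩, ?_⟩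
        simp only [ofNat_encode]
        exact ⟨hk1', hk2'⟩
      · refine ⟨encode (((τ', τ), n, max k1 k2) : Q), ((τ', τ), n, max k1 k2), by simp, ⟨h9, h5⟩, ?_⟩
        simp only [ofNat_encode]
        exact ⟨hk2', hk1'⟩
    · exact key

theorem exists_generic
    (hC : ∀ {α : Type} [Primcodable α] {p : α → Prop}, S1 p → SI C p ∧ SI C fun a => ¬ p a)
    (hX : SI C fun x : (ℕ × ℕ) × Bool => X x.1.1 x.1.2 = x.2) :
    ∃ D : ℕ → Bool, TLe D C ∧ ¬ Computable D ∧ ∀ s, TLe (X s) D → Computable (X s) :=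
  ⟨GD X, tLe_gd hC hX, gd_not_computable, fun _ h => computable_of_tLe h⟩

end Pool.Agent.Y542.TD
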