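import Mathlib
import Pool.Agent.Y542.TD.Evl
import Pool.Agent.Y542.TD.Gen

set_option autoImplicit false
set_option maxHeartbeats 400000

namespace Pool.Agent.Y542.TD

open Encodable Denumerable
open Nat.Partrec (Code)
open Pool.Agent.Helper227 Pool.Agent.H685R3

/-- the question number `z`: indices `e`, `u`, a formula, an assignment -/
abbrev Qn := ((ℕ × ℕ) × ℕ) × List ℕ

def cd (e u x : ℕ) (v : List ℕ) : ℕ := encode ((((e, u), x), v) : Qn)

theorem prim_cd {α : Type} [Primcodable α] {e u x : α → ℕ} {v : α → List ℕ} (he : Primrec e)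
    (hu : Primrec u) (hx : Primrec x) (hv : Primrec v) :
    Primrec fun a => cd (e a) (u a) (x a) (v a) :=
  Primrec.encode.comp (((he.pair hu).pair hx).pair hv)

/-- the number `1` is the output of program `e` at `n` -/
def One (e n : ℕ) : Prop := 1 ∈ Code.eval (ofNat Code e) n

theorem s1_One {α : Type} [Primcodable α] {e n : α → ℕ} (he : Primrec e) (hn : Primrec n) :
    S1 fun a => One (e a) (n a) :=
  S1.comp (p := fun x : (Code × ℕ) × ℕ => x.2 ∈ x.1.1.eval x.1.2)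
    (f := fun a => ((ofNat Code (e a), n a), 1)) s1_graph
    ((((Primrec.ofNat Code).comp he).pair hn).pair (Primrec.const 1))

/-- components of numbers -/
def a1 (x : ℕ) : ℕ := x.unpair.1

def a2 (x : ℕ) : ℕ := x.unpair.2

theorem prim_a1 : Primrec a1 := Primrec.fst.comp Primrec.unpair

theorem prim_a2 : Primrec a2 := Primrec.snd.comp Primrec.unpair

theorem a1_pair (x y : ℕ) : a1 (Nat.pair x y) = x := by simp [a1]

theorem a2_pair (x y : ℕ) : a2 (Nat.pair x y) = y := by simp [a2]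

attribute [irreducible] a1 a2

/-- one level of the evaluation of formulas -/
def Ps (X : ℕ → Bool) (z : ℕ) : Prop := ∃ q : Qn, decode z = some q ∧
  ((a1 q.1.2 ≤ 1 ∧ One q.1.1.1 (encode (q.1.2, q.2))) ∨
   (a1 q.1.2 = 2 ∧ X (cd q.1.1.1 q.1.1.2 (a2 q.1.2) q.2) = false) ∨
   (a1 q.1.2 = 3 ∧ X (cd q.1.1.1 q.1.1.2 (a1 (a2 q.1.2)) q.2) = true ∧
     X (cd q.1.1.1 q.1.1.2 (a2 (a2 q.1.2)) q.2) = true) ∨
   (a1 q.1.2 = 4 ∧ ∃ a, One q.1.1.2 a ∧ X (cd q.1.1.1 q.1.1.2 (a2 q.1.2) (a :: q.2)) = true))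

theorem us_Ps : US Ps := by
  have he : Primrec fun y : ℕ × Qn => y.2.1.1.1 :=
    Primrec.fst.comp (Primrec.fst.comp (Primrec.fst.comp Primrec.snd))
  have hu : Primrec fun y : ℕ × Qn => y.2.1.1.2 :=
    Primrec.snd.comp (Primrec.fst.comp (Primrec.fst.comp Primrec.snd))
  have hx : Primrec fun y : ℕ × Qn => y.2.1.2 :=
    Primrec.snd.comp (Primrec.fst.comp Primrec.snd)
  have hv : Primrec fun y : ℕ × Qn => y.2.2 := Primrec.snd.comp Primrec.snd
  have h1 : Primrec fun y : ℕ × Qn => a1 y.2.1.2 := prim_a1.comp hx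
  have h2 : Primrec fun y : ℕ × Qn => a2 y.2.1.2 := prim_a2.comp hx
  have h21 : Primrec fun y : ℕ × Qn => a1 (a2 y.2.1.2) := prim_a1.comp h2
  have h22 : Primrec fun y : ℕ × Qn => a2 (a2 y.2.1.2) := prim_a2.comp h2
  have hq : ∀ {α : Type} [Primcodable α] {f : α → ℕ} (b : Bool), Primrec f →
      US fun X (y : α) => X (f y) = b := fun {α} _ {f} b hf =>
    US.comp (p := fun X (y : ℕ × Bool) => X y.1 = y.2) (f := fun y : α => (f y, b)) US.query
      (hf.pair (Primrec.const b))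
  unfold Ps
  refine US.ex (p := fun X (z : ℕ) (q : Qn) => decode z = some q ∧
    ((a1 q.1.2 ≤ 1 ∧ One q.1.1.1 (encode (q.1.2, q.2))) ∨
   (a1 q.1.2 = 2 ∧ X (cd q.1.1.1 q.1.1.2 (a2 q.1.2) q.2) = false) ∨
   (a1 q.1.2 = 3 ∧ X (cd q.1.1.1 q.1.1.2 (a1 (a2 q.1.2)) q.2) = true ∧
     X (cd q.1.1.1 q.1.1.2 (a2 (a2 q.1.2)) q.2) = true) ∨
   (a1 q.1.2 = 4 ∧ ∃ a, One q.1.1.2 a ∧ X (cd q.1.1.1 q.1.1.2 (a2 q.1.2) (a :: q.2)) = true)))
    (US.and (US.of_prim ?_) (US.or (US.and (US.of_prim ?_) (US.of_s1 ?_)) (US.or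
      (US.and (US.of_prim ?_) ?_) (US.or (US.and (US.of_prim ?_) (US.and ?_ ?_))
      (US.and (US.of_prim ?_) ?_)))))
  · exact Primrec.eq.comp (Primrec.decode.comp Primrec.fst) (Primrec.option_some.comp Primrec.snd)
  · exact Primrec.nat_le.comp h1 (Primrec.const 1)
  · exact s1_One he (Primrec.encode.comp (hx.pair hv))
  · exact Primrec.eq.comp h1 (Primrec.const 2)
  · exact hq (f := fun y : ℕ × Qn => cd y.2.1.1.1 y.2.1.1.2 (a2 y.2.1.2) y.2.2) false
      (prim_cd he hu h2 hv)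
  · exact Primrec.eq.comp h1 (Primrec.const 3)
  · exact hq (f := fun y : ℕ × Qn => cd y.2.1.1.1 y.2.1.1.2 (a1 (a2 y.2.1.2)) y.2.2) true
      (prim_cd he hu h21 hv)
  · exact hq (f := fun y : ℕ × Qn => cd y.2.1.1.1 y.2.1.1.2 (a2 (a2 y.2.1.2)) y.2.2) true
      (prim_cd he hu h22 hv)
  · exact Primrec.eq.comp h1 (Primrec.const 4)
  · refine US.ex (p := fun X (y : ℕ × Qn) a => One y.2.1.1.2 a ∧
      X (cd y.2.1.1.1 y.2.1.1.2 (a2 y.2.1.2) (a :: y.2.2)) = true) (US.and (US.of_s1 ?_) ?_)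
    · exact s1_One (hu.comp Primrec.fst) Primrec.snd
    · exact hq (f := fun z : (ℕ × Qn) × ℕ =>
        cd z.1.2.1.1.1 z.1.2.1.1.2 (a2 z.1.2.1.2) (z.2 :: z.1.2.2)) true
        (prim_cd (he.comp Primrec.fst) (hu.comp Primrec.fst) (h2.comp Primrec.fst)
          (Primrec.list_cons.comp Primrec.snd (hv.comp Primrec.fst)))

open Classical in
/-- the levels -/
noncomputable def TT : ℕ → ℕ → Bool
  | 0 => fun _ => false
  | n + 1 => fun z => decide (Ps (TT n) z)

theorem tt_succ (n z : ℕ) : TT (n + 1) z = true ↔ Ps (TT n) z := by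
  classical
  rw [TT]
  simp

theorem ps_cd {X : ℕ → Bool} {e u x : ℕ} {v : List ℕ} : Ps X (cd e u x v) ↔
    ((a1 x ≤ 1 ∧ One e (encode (x, v))) ∨
   (a1 x = 2 ∧ X (cd e u (a2 x) v) = false) ∨
   (a1 x = 3 ∧ X (cd e u (a1 (a2 x)) v) = true ∧ X (cd e u (a2 (a2 x)) v) = true) ∨
   (a1 x = 4 ∧ ∃ a, One u a ∧ X (cd e u (a2 x) (a :: v)) = true)) := by
  unfold Ps
  constructor
  · rintro ⟨q, hq, h⟩
    have h1 : decode (α := Qn) (cd e u x v) = some (((e, u), x), v) := by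
      unfold cd
      rw [encodek]
    rw [h1] at hq
    have := Option.some.inj hq
    subst this
    exact h
  · intro h
    refine ⟨(((e, u), x), v), ?_, h⟩
    unfold cd
    rw [encodek]

variable {S : Sig}

/-- the levels evaluate the formulas -/
theorem tt_sat {A : Str S} {e u : ℕ} (he : ∀ p : ℕ × List ℕ, One e (encode p) ↔ At A p)
    (hu : ∀ x, One u x ↔ x ∈ A.U) {n : ℕ} (φ : Fml S n) : ∀ (N : ℕ) (v : Fin n → ℕ),
    (∀ k, v k ∈ A.U) → φ.code < N → (TT N (cd e u φ.code (List.ofFn v)) = true ↔ Sat A φ v) := by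
  induction φ with
  | @eq n s t =>
    intro N v hv hN
    obtain ⟨N, rfl⟩ : ∃ M, N = M + 1 := ⟨N - 1, by omega⟩
    rw [tt_succ, ps_cd, he, at_eq hv]
    unfold Fml.code
    rw [a1_pair]
    simp
  | @rel n i m h ts =>
    intro N v hv hN
    obtain ⟨N, rfl⟩ : ∃ M, N = M + 1 := ⟨N - 1, by omega⟩
    rw [tt_succ, ps_cd, he, at_rel hv]
    unfold Fml.code
    rw [a1_pair]
    simp
  | @neg n φ ih =>
    intro N v hv hN
    obtain ⟨N, rfl⟩ : ∃ M, N = M + 1 := ⟨N - 1, by omega⟩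
    unfold Fml.code at hN
    have h1 : φ.code < Nat.pair 2 φ.code := lt_pair_right (by omega)
    have h2 := ih N v hv (by omega)
    rw [tt_succ, ps_cd]
    unfold Fml.code Sat
    rw [a1_pair, a2_pair, ← h2]
    simp
  | @and n φ ψ ih1 ih2 =>
    intro N v hv hN
    obtain ⟨N, rfl⟩ : ∃ M, N = M + 1 := ⟨N - 1, by omega⟩
    unfold Fml.code at hN
    have h1 : Nat.pair φ.code ψ.code < Nat.pair 3 (Nat.pair φ.code ψ.code) :=
      lt_pair_right (by omega)
    have h3 := Nat.left_le_pair φ.code ψ.code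
    have h4 := Nat.right_le_pair φ.code ψ.code
    have h5 := ih1 N v hv (by omega)
    have h6 := ih2 N v hv (by omega)
    rw [tt_succ, ps_cd]
    unfold Fml.code Sat
    rw [a1_pair, a2_pair, a1_pair, a2_pair, ← h5, ← h6]
    simp
  | @ex n φ ih =>
    intro N v hv hN
    obtain ⟨N, rfl⟩ : ∃ M, N = M + 1 := ⟨N - 1, by omega⟩
    unfold Fml.code at hN
    have h1 : φ.code < Nat.pair 4 φ.code := lt_pair_right (by omega)
    rw [tt_succ, ps_cd]
    unfold Fml.code Sat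
    rw [a1_pair, a2_pair]
    have h2 : ∀ a, a ∈ A.U → (TT N (cd e u φ.code (a :: List.ofFn v)) = true ↔
        Sat A φ (Fin.cons a v)) := by
      intro a ha
      have h3 := ih N (Fin.cons a v) (fun k => by
        refine Fin.cases ?_ (fun k => ?_) k
        · rw [Fin.cons_zero]; exact ha
        · rw [Fin.cons_succ]; exact hv k) (by omega)
      have h4 : List.ofFn (Fin.cons a v : Fin (n + 1) → ℕ) = a :: List.ofFn v := by
        rw [List.ofFn_succ]
        simp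
      rw [h4] at h3
      exact h3
    have h3 : (∃ a, One u a ∧ TT N (cd e u φ.code (a :: List.ofFn v)) = true) ↔
        ∃ a ∈ A.U, Sat A φ (Fin.cons a v) := by
      refine exists_congr fun a => ?_
      rw [hu]
      exact and_congr_right fun ha => h2 a ha
    rw [h3]
    simp

open Classical in
/-- the uniformly enumerated sets -/
noncomputable def XX (s x : ℕ) : Bool :=
  decide (One (a1 s) x ∧ TT (x + 1) (cd (a1 (a2 s)) (a2 (a2 s)) x []) = true)

theorem si_XX : SI Zw fun x : (ℕ × ℕ) × Bool => XX x.1.1 x.1.2 = x.2 := by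
  have hT : SI Zw fun x : (ℕ × ℕ) × Bool => TT x.1.1 x.1.2 = x.2 :=
    si_iterate us_Ps (fun _ => rfl) tt_succ
  have hs : Primrec fun y : (ℕ × ℕ) × Bool => y.1.1 := Primrec.fst.comp Primrec.fst
  have hx : Primrec fun y : (ℕ × ℕ) × Bool => y.1.2 := Primrec.snd.comp Primrec.fst
  have hb : Primrec fun y : (ℕ × ℕ) × Bool => y.2 := Primrec.snd
  have h2 : Primrec fun y : (ℕ × ℕ) × Bool => a2 y.1.1 := prim_a2.comp hs
  have hc : Primrec fun y : (ℕ × ℕ) × Bool => cd (a1 (a2 y.1.1)) (a2 (a2 y.1.1)) y.1.2 [] :=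
    prim_cd (prim_a1.comp h2) (prim_a2.comp h2) hx (Primrec.const [])
  have hT' : ∀ b : Bool, SI Zw fun y : (ℕ × ℕ) × Bool =>
      TT (y.1.2 + 1) (cd (a1 (a2 y.1.1)) (a2 (a2 y.1.1)) y.1.2 []) = b := fun b =>
    SI.comp (p := fun x : (ℕ × ℕ) × Bool => TT x.1.1 x.1.2 = x.2)
      (f := fun y : (ℕ × ℕ) × Bool =>
        ((y.1.2 + 1, cd (a1 (a2 y.1.1)) (a2 (a2 y.1.1)) y.1.2 []), b)) hT
      (((Primrec.succ.comp hx).pair hc).pair (Primrec.const b))
  have hO : S1 fun y : (ℕ × ℕ) × Bool => One (a1 y.1.1) y.1.2 := s1_One (prim_a1.comp hs) hx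
  obtain ⟨o1, o2⟩ := si_of_s1 hO
  have h3 : SI Zw fun y : (ℕ × ℕ) × Bool =>
      ((One (a1 y.1.1) y.1.2 ∧
        TT (y.1.2 + 1) (cd (a1 (a2 y.1.1)) (a2 (a2 y.1.1)) y.1.2 []) = true) ∧ y.2 = true) ∨
      ((¬ One (a1 y.1.1) y.1.2 ∨
        TT (y.1.2 + 1) (cd (a1 (a2 y.1.1)) (a2 (a2 y.1.1)) y.1.2 []) = false) ∧ y.2 = false) :=
    SI.or (SI.and (SI.and o1 (hT' true)) (SI.of_prim (Primrec.eq.comp hb (Primrec.const true))))
      (SI.and (SI.or o2 (hT' false)) (SI.of_prim (Primrec.eq.comp hb (Primrec.const false))))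
  refine h3.of_eq fun y => ?_
  obtain ⟨⟨s, x⟩, b⟩ := y
  unfold XX
  simp only
  by_cases h4 : One (a1 s) x
  · cases h5 : TT (x + 1) (cd (a1 (a2 s)) (a2 (a2 s)) x []) <;> cases b <;> simp [h4]
  · cases b <;> simp [h4]

/-- indices of computable predicates -/
theorem exists_One {α : Type} [Primcodable α] {P : α → Prop} (hP : ComputablePred P) :
    ∃ e, ∀ a, One e (encode a) ↔ P a := by
  classical
  have h1 : Computable fun a => if P a then 1 else 0 :=
    Pool.Agent.Helper941.Zeta.c_ite hP (Computable.const 1) (Computable.const 0)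
  obtain ⟨c, hc⟩ := Code.exists_code.1 h1.partrec
  refine ⟨encode c, fun a => ?_⟩
  unfold One
  rw [ofNat_encode, hc]
  by_cases h : P a <;> simp [h]

/-- the theories of the computable structures are among the sets `XX s` -/
theorem exists_XX (hS : S.IsComputable) {A : Str S} (hA : A.IsComputable) :
    ∃ s, XX s = Th A := by
  obtain ⟨e, he⟩ := exists_One (p_At hS hA)
  obtain ⟨u, hu⟩ := exists_One hA.1
  have hw : ComputablePred fun x : ℕ => WF S x = 1 :=
    Pool.Agent.Helper941.Zeta.p_eq (c_WF hS) (Computable.const 1)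
  obtain ⟨w, hw⟩ := exists_One hw
  refine ⟨Nat.pair w (Nat.pair e u), ?_⟩
  funext x
  unfold XX Th
  rw [a1_pair, a2_pair, a1_pair, a2_pair]
  have h1 := hw x
  rw [← wf_iff] at h1
  have h2 : (One w x ↔ ∃ φ : Fml S 0, φ.code = x) := h1
  congr 1
  apply propext
  rw [h2]
  have h3 : ∀ φ : Fml S 0, (TT (φ.code + 1) (cd e u φ.code []) = true ↔ Sat A φ Fin.elim0) :=
    fun φ => tt_sat he hu φ (φ.code + 1) Fin.elim0 (fun k => k.elim0) (Nat.lt_succ_self _)
  constructor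
  · rintro ⟨⟨φ, rfl⟩, h4⟩
    exact ⟨φ, rfl, (h3 φ).1 h4⟩
  · rintro ⟨φ, rfl, h4⟩
    exact ⟨⟨φ, rfl⟩, (h3 φ).2 h4⟩

theorem main : ∃ D : ℕ → Bool, TLe D Zw ∧ ¬ Computable D ∧
    ∀ (S : Sig) (A : Str S), S.IsComputable → A.IsComputable → TLe (Th A) D → Computable (Th A) := by
  obtain ⟨D, h1, h2, h3⟩ := exists_generic (C := Zw) (X := XX) (fun hp => si_of_s1 hp) si_XX
  refine ⟨D, h1, h2, fun S A hS hA h4 => ?_⟩
  obtain ⟨s, hs⟩ := exists_XX hS hA
  rw [← hs] at h4 ⊢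
  exact h3 s h4

/-- sets reducible to computable sets are computable -/
theorem computable_of_tLe' {D X : ℕ → Bool} (h : TLe D X) (hX : Computable X) : Computable D := by
  obtain ⟨E, hE, _, eE⟩ := tLe_iff.1 h
  refine computable_of_graph ?_
  have hp : Computable fun y : (ℕ × Bool) × ℕ => pre X y.2 := by
    unfold pre
    exact Pool.Agent.Helper941.Zeta.c_tab (f := fun y : (ℕ × Bool) × ℕ => y.2)
      (g := fun _ i => X i) Computable.snd (hX.comp Computable.snd)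
  have h1 : S1 fun x : ℕ × Bool => ∃ s : ℕ, E (pre X s, x) := by
    refine S1.ex (p := fun (x : ℕ × Bool) (s : ℕ) => E (pre X s, x)) ?_
    exact S1.comp_computable (p := E) (f := fun y : (ℕ × Bool) × ℕ => (pre X y.2, y.1)) hE
      (hp.pair Computable.fst)
  exact h1.of_eq fun x => (eE x.1 x.2).symm

theorem main2 : ∃ D : ℕ → Bool, TLe D (om fun _ => false) ∧ ¬ Computable D ∧
    ∀ (S : Sig) (A : Str S), S.IsComputable → A.IsComputable →
      (TLe (Th A) D → Computable (Th A)) ∧ ¬ (TLe (Th A) D ∧ TLe D (Th A)) := by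
  obtain ⟨D, h1, h2, h3⟩ := main
  refine ⟨D, h1, h2, fun S A hS hA => ⟨h3 S A hS hA, fun h => ?_⟩⟩
  exact h2 (computable_of_tLe' h.2 (h3 S A hS hA h.1))

end Pool.Agent.Y542.TD
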